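import Mathlib

/-!
# Squeezing function tending to one on smooth pseudoconvex domains: definitions and lemma statements

Project SQ (MP_ab90d5_an, frozen statement S05773), owner helper737.
-/

set_option autoImplicit false

open Metric Set

namespace Pool.Agent.W737.SQ

/-- complex n-space -/
abbrev V (n : ℕ) := EuclideanSpace ℂ (Fin n)

/-- four times the Levi form of rho at z in direction w -/
noncomputable def H4 {n : ℕ} (ρ : V n → ℝ) (z w : V n) : ℝ :=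
  fderiv ℝ (fderiv ℝ ρ) z w w + fderiv ℝ (fderiv ℝ ρ) z (Complex.I • w) (Complex.I • w)

/-- twice the (1,0)-differential: the complex linear functional
`X ↦ dρ(z)X - i dρ(z)(iX)` (as a complex number; complex linear in X) -/
noncomputable def ell {n : ℕ} (ρ : V n → ℝ) (z X : V n) : ℂ :=
  ((fderiv ℝ ρ z X : ℝ) : ℂ) - Complex.I * ((fderiv ℝ ρ z (Complex.I • X) : ℝ) : ℂ)

/-- tangential vector field obtained from two constant vectors -/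
noncomputable def tang {n : ℕ} (ρ : V n → ℝ) (e W z : V n) : V n :=
  ell ρ z e • W - ell ρ z W • e

/-- smooth bounded Levi-pseudoconvex domain with defining function rho -/
structure Dom {n : ℕ} (Ω : Set (V n)) (ρ : V n → ℝ) : Prop where
  smooth : ContDiff ℝ ((⊤ : ℕ∞) : WithTop ℕ∞) ρ
  eq : Ω = {x | ρ x < 0}
  bdd : Bornology.IsBounded Ω
  nz : ∀ p ∈ frontier Ω, fderiv ℝ ρ p ≠ 0
  psc : ∀ p ∈ frontier Ω, ∀ w : V n,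
    fderiv ℝ ρ p w = 0 → fderiv ℝ ρ p (Complex.I • w) = 0 → 0 ≤ H4 ρ p w

/-- SQ-B: near a boundary point, every point z (on either side) has a boundary point at
distance at most `K |ρ z|` -/
def S_bdry : Prop :=
  ∀ (n : ℕ) (Ω : Set (V n)) (ρ : V n → ℝ), Dom Ω ρ → ∀ p ∈ frontier Ω,
    ∃ K R : ℝ, 0 < K ∧ 0 < R ∧ ∀ z : V n, ‖z - p‖ < R →
      ∃ q ∈ frontier Ω, ‖z - q‖ ≤ K * |ρ z|

/-- SQ-P: local pseudoconvexity inequality at all points near a boundary point -/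
def S_psc : Prop :=
  ∀ (n : ℕ) (Ω : Set (V n)) (ρ : V n → ℝ), Dom Ω ρ → ∀ p ∈ frontier Ω,
    ∃ K R : ℝ, 0 < K ∧ 0 < R ∧ ∀ z : V n, ‖z - p‖ < R → ∀ X : V n,
      -(K * |ρ z| * ‖X‖ ^ 2) - K * ‖X‖ * (|fderiv ℝ ρ z X| + |fderiv ℝ ρ z (Complex.I • X)|)
        ≤ H4 ρ z X

/-- SQ-C: positive solutions of `Δ f ≤ K (f + |∇ f|)` in a disc: circle means of `f^η` are at
most `2 f(0)^η` -/
def S_circle : Prop :=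
  ∀ η K R : ℝ, 0 < η → η < 1 → 0 < K → 0 < R →
    ∃ s0 : ℝ, 0 < s0 ∧ s0 < R ∧ ∀ f : ℂ → ℝ, ContDiffOn ℝ ((⊤ : ℕ∞) : WithTop ℕ∞) f (ball 0 R) →
      (∀ ζ ∈ ball (0 : ℂ) R, 0 < f ζ) →
      (∀ ζ ∈ ball (0 : ℂ) R,
        fderiv ℝ (fderiv ℝ f) ζ 1 1 + fderiv ℝ (fderiv ℝ f) ζ Complex.I Complex.I
          ≤ K * (f ζ + ‖fderiv ℝ f ζ‖)) →
      ∀ s : ℝ, 0 ≤ s → s ≤ s0 →
        ∫ α in (0 : ℝ)..(2 * Real.pi), (f (circleMap 0 s α)) ^ η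
          ≤ 2 * Real.pi * (2 * (f 0) ^ η)

/-- SQ-T: uniform Taylor expansion of `ρ ∘ φ` along rays, for all bounded holomorphic discs -/
def S_taylor : Prop :=
  ∀ (n : ℕ) (ρ : V n → ℝ), ContDiff ℝ ((⊤ : ℕ∞) : WithTop ℕ∞) ρ → ∀ (B : ℝ) (k : ℕ),
    ∃ K : ℝ, 0 < K ∧ ∀ φ : ℂ → V n, DifferentiableOn ℂ φ (ball 0 1) →
      (∀ ζ ∈ ball (0 : ℂ) 1, ‖φ ζ‖ ≤ B) → ∀ u : ℂ, ‖u‖ = 1 →
        ∃ a : ℕ → ℝ, a 0 = ρ (φ 0) ∧ a 1 = fderiv ℝ ρ (φ 0) (u • deriv φ 0) ∧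
          ∀ s : ℝ, 0 ≤ s → s ≤ 1 / 2 →
            |ρ (φ ((s : ℂ) * u)) - ∑ j ∈ Finset.range (k + 2), a j * s ^ j| ≤ K * s ^ (k + 2)

/-- SQ-G: gradient bound from small circle means (Vandermonde weights) -/
def S_grad : Prop :=
  ∀ (k : ℕ) (K s0 : ℝ), 0 < K → 0 < s0 → ∃ C : ℝ, 0 < C ∧
    ∀ (f : ℂ → ℝ) (L : ℂ →L[ℝ] ℝ) (μ : ℝ), ContinuousOn f (closedBall 0 s0) → 0 ≤ μ →
      (∀ u : ℂ, ‖u‖ = 1 → ∃ a : ℕ → ℝ, a 0 = f 0 ∧ a 1 = L u ∧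
        ∀ s : ℝ, 0 ≤ s → s ≤ s0 →
          |f ((s : ℂ) * u) - ∑ j ∈ Finset.range (k + 2), a j * s ^ j| ≤ K * s ^ (k + 2)) →
      (∀ s : ℝ, 0 ≤ s → s ≤ s0 →
        ∫ α in (0 : ℝ)..(2 * Real.pi), |f (circleMap 0 s α)| ≤ μ) →
      ∀ t : ℝ, 0 < t → (k + 2 : ℝ) * t ≤ s0 →
        |L 1| ≤ C * (μ / t + t ^ (k + 1)) ∧ |L Complex.I| ≤ C * (μ / t + t ^ (k + 1))

/-- SQ-N: the normal component of discs through z is at most `|ρ z|^(1-ε)` for every ε -/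
def S_normal : Prop :=
  ∀ (n : ℕ) (Ω : Set (V n)) (ρ : V n → ℝ), Dom Ω ρ → ∀ p ∈ frontier Ω, ∀ m : ℕ,
    ∃ K R : ℝ, 0 < K ∧ 0 < R ∧ ∀ φ : ℂ → V n, DifferentiableOn ℂ φ (ball 0 1) →
      MapsTo φ (ball 0 1) Ω → ‖φ 0 - p‖ < R →
        |fderiv ℝ ρ (φ 0) (deriv φ 0)| ^ (m + 1) ≤ K * (-ρ (φ 0)) ^ m ∧
        |fderiv ℝ ρ (φ 0) (Complex.I • deriv φ 0)| ^ (m + 1) ≤ K * (-ρ (φ 0)) ^ m

/-- SQ-D: discs in complex tangential directions -/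
def S_disc : Prop :=
  ∀ (n : ℕ) (ρ : V n → ℝ) (p : V n) (B : ℝ), ContDiff ℝ ((⊤ : ℕ∞) : WithTop ℕ∞) ρ →
    fderiv ℝ ρ p ≠ 0 → 0 < B →
    ∃ K R : ℝ, 0 < K ∧ 0 < R ∧ ∀ z : V n, ‖z - p‖ < R → ρ z < 0 → ∀ w : V n, ‖w‖ ≤ B →
      fderiv ℝ ρ z w = 0 → fderiv ℝ ρ z (Complex.I • w) = 0 →
      ∀ r : ℝ, 0 < r → r ≤ 1 → K * (max 0 (H4 ρ z w)) * r ^ 2 ≤ -ρ z → K * r ^ 3 ≤ -ρ z →
        ∃ ψ : ℂ → V n, Differentiable ℂ ψ ∧ ψ 0 = z ∧ deriv ψ 0 = w ∧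
          ∀ t : ℂ, ‖t‖ < r → ρ (ψ t) < 0

/-- SQ-L: the Levi form along a transversal slice in the null direction vanishes to second
order in the tangential variable of the slice -/
def S_levi : Prop :=
  ∀ (n : ℕ) (Ω : Set (V n)) (ρ : V n → ℝ), Dom Ω ρ → ∀ p ∈ frontier Ω, ∀ e W : V n,
    fderiv ℝ ρ p W = 0 → fderiv ℝ ρ p (Complex.I • W) = 0 → H4 ρ p W = 0 →
    ∀ Γ : ℂ → V n, ContDiff ℝ ((⊤ : ℕ∞) : WithTop ℕ∞) Γ → Γ 0 = p →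
      (∃ K0 r0 : ℝ, 0 < r0 ∧ ∀ y : ℝ, |y| < r0 → |ρ (Γ (Complex.I * (y : ℂ)))| ≤ K0 * y ^ 2) →
      ∃ K r : ℝ, 0 < K ∧ 0 < r ∧ ∀ ζ : ℂ, ‖ζ‖ < r →
        H4 ρ (Γ ζ) (tang ρ e W (Γ ζ)) ≤ K * (‖ζ‖ ^ 2 + |ζ.re|)

/-- SQ-F: flattening the boundary along a transversal slice -/
def S_flat : Prop :=
  ∀ (n : ℕ) (ρ : V n → ℝ) (p e : V n), ContDiff ℝ ((⊤ : ℕ∞) : WithTop ℕ∞) ρ →
    ρ p = 0 → fderiv ℝ ρ p e = -1 → fderiv ℝ ρ p (Complex.I • e) = 0 → ∀ N : ℕ,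
      ∃ c : Polynomial ℂ, c.coeff 0 = 0 ∧ c.coeff 1 = 1 ∧ ∃ K r : ℝ, 0 < K ∧ 0 < r ∧
        ∀ y : ℝ, |y| ≤ r → |ρ (p + (c.eval (Complex.I * (y : ℂ))) • e)| ≤ K * |y| ^ N

/-- SQ-J: approximating a smooth function on the imaginary axis by a holomorphic polynomial -/
def S_jet : Prop :=
  ∀ (n : ℕ) (T : ℝ → (V n →L[ℂ] ℂ)), ContDiff ℝ ((⊤ : ℕ∞) : WithTop ℕ∞) T → ∀ N : ℕ,
    ∃ Ξ : ℂ → (V n →L[ℂ] ℂ), Differentiable ℂ Ξ ∧ ∃ K r : ℝ, 0 < K ∧ 0 < r ∧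
      ∀ y : ℝ, |y| ≤ r → ‖T y - Ξ (Complex.I * (y : ℂ))‖ ≤ K * |y| ^ N

end Pool.Agent.W737.SQ
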