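import Mathlib

/-!
# Ball automorphisms and discs in the ball (project SQ)
-/

set_option autoImplicit false

open Metric Set

namespace Pool.Agent.W737.SQ

variable {E : Type*} [NormedAddCommGroup E] [InnerProductSpace ℂ E]

/-- the norm identity for the ball automorphism -/
theorem aut_identity (w x : E) {s : ℝ} (hs0 : 0 ≤ s) (hs : s ^ 2 = 1 - ‖w‖ ^ 2) :
    ‖w - (s : ℂ) • x - (inner ℂ w x / (1 + s) : ℂ) • w‖ ^ 2
      = ‖1 - inner ℂ w x‖ ^ 2 - s ^ 2 * (1 - ‖x‖ ^ 2) := by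
  set τ : ℂ := inner ℂ w x with hτ
  have h1s : (1 + s : ℝ) ≠ 0 := by positivity
  have h1sc : (1 + (s : ℂ)) ≠ 0 := by
    exact_mod_cast h1s
  have key : w - (s : ℂ) • x - (τ / (1 + s) : ℂ) • w = (1 - τ / (1 + s) : ℂ) • w - (s : ℂ) • x := by
    rw [sub_smul, one_smul]; abel
  rw [key, @norm_sub_sq ℂ, norm_smul, norm_smul, inner_smul_left, inner_smul_right, ← hτ]
  have hsn : ‖(s : ℂ)‖ = s := by rw [Complex.norm_real, Real.norm_of_nonneg hs0]
  rw [hsn]
  have hw : ‖w‖ ^ 2 = 1 - s ^ 2 := by linarith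
  have e1 : (‖(1 - τ / (1 + s) : ℂ)‖ * ‖w‖) ^ 2 = ‖(1 - τ / (1 + s) : ℂ)‖ ^ 2 * (1 - s ^ 2) := by
    rw [mul_pow, hw]
  rw [e1, mul_pow]
  have e2 : ‖(1 - τ / (1 + s) : ℂ)‖ ^ 2 = (1 - τ.re / (1 + s)) ^ 2 + (τ.im / (1 + s)) ^ 2 := by
    rw [← Complex.normSq_eq_norm_sq, Complex.normSq_apply]
    have hre : (τ / (1 + (s : ℂ))).re = τ.re / (1 + s) := by
      rw [show (1 + (s : ℂ)) = ((1 + s : ℝ) : ℂ) by push_cast; ring, Complex.div_ofReal_re]
    have him : (τ / (1 + (s : ℂ))).im = τ.im / (1 + s) := by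
      rw [show (1 + (s : ℂ)) = ((1 + s : ℝ) : ℂ) by push_cast; ring, Complex.div_ofReal_im]
    simp only [Complex.sub_re, Complex.one_re, Complex.sub_im, Complex.one_im, hre, him]
    ring
  have e3 : ‖1 - τ‖ ^ 2 = (1 - τ.re) ^ 2 + τ.im ^ 2 := by
    rw [← Complex.normSq_eq_norm_sq, Complex.normSq_apply]
    simp only [Complex.sub_re, Complex.one_re, Complex.sub_im, Complex.one_im]
    ring
  have e4 : RCLike.re ((starRingEnd ℂ) (1 - τ / (1 + s)) * ((s : ℂ) * τ))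
      = s * ((1 - τ.re / (1 + s)) * τ.re - (τ.im / (1 + s)) * τ.im) := by
    have hre : (τ / (1 + (s : ℂ))).re = τ.re / (1 + s) := by
      rw [show (1 + (s : ℂ)) = ((1 + s : ℝ) : ℂ) by push_cast; ring, Complex.div_ofReal_re]
    have him : (τ / (1 + (s : ℂ))).im = τ.im / (1 + s) := by
      rw [show (1 + (s : ℂ)) = ((1 + s : ℝ) : ℂ) by push_cast; ring, Complex.div_ofReal_im]
    simp only [RCLike.re_eq_complex_re, Complex.mul_re, Complex.conj_re, Complex.conj_im,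
      Complex.sub_re, Complex.one_re, Complex.sub_im, Complex.one_im, hre, him,
      Complex.ofReal_re, Complex.ofReal_im, Complex.mul_im]
    ring
  rw [e2, e3, e4]
  field_simp
  ring

/-- the ball automorphism exchanging 0 and w (up to sign) -/
theorem ball_aut {w : E} (hw : ‖w‖ < 1) :
    ∃ h : E → E, DifferentiableOn ℂ h (ball 0 1) ∧ MapsTo h (ball 0 1) (ball 0 1) ∧
      ∀ v : E, ‖v‖ ^ 2 ≤ (1 - ‖w‖ ^ 2) * ‖fderiv ℂ h w v‖ ^ 2 := by
  have hw2 : 0 < 1 - ‖w‖ ^ 2 := by nlinarith [norm_nonneg w]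
  set s : ℝ := Real.sqrt (1 - ‖w‖ ^ 2) with hs
  have hs0 : 0 < s := Real.sqrt_pos.2 hw2
  have hs2 : s ^ 2 = 1 - ‖w‖ ^ 2 := Real.sq_sqrt hw2.le
  have h1sc : (1 + (s : ℂ)) ≠ 0 := by
    have : (1 + s : ℝ) ≠ 0 := by positivity
    exact_mod_cast this
  have hden : ∀ x : E, x ∈ ball (0 : E) 1 → (1 - inner ℂ w x : ℂ) ≠ 0 := by
    intro x hx h
    have h1 : (inner ℂ w x : ℂ) = 1 := by linear_combination -h
    have h2 := norm_inner_le_norm (𝕜 := ℂ) w x
    rw [h1, norm_one] at h2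
    have h3 : ‖x‖ < 1 := by simpa using hx
    nlinarith [norm_nonneg w, norm_nonneg x]
  set N : E → E := fun x => w - (s : ℂ) • x - ((inner ℂ w x : ℂ) / (1 + s)) • w with hN
  set h : E → E := fun x => ((1 - inner ℂ w x : ℂ)⁻¹) • N x with hh
  have hinner : Differentiable ℂ (fun x : E => (inner ℂ w x : ℂ)) := (innerSL ℂ w).differentiable
  have hNd : Differentiable ℂ N := by
    apply Differentiable.sub
    · exact (differentiable_const _).sub (differentiable_id.const_smul _)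
    · have h1 : Differentiable ℂ (fun x : E => (inner ℂ w x : ℂ) / (1 + s)) := by
        simpa [div_eq_mul_inv] using hinner.mul_const ((1 + (s : ℂ))⁻¹)
      exact h1.smul_const _
  have hhd : DifferentiableOn ℂ h (ball 0 1) := by
    intro x hx
    apply DifferentiableAt.differentiableWithinAt
    exact (((differentiableAt_const _).sub (hinner x)).inv (hden x hx)).smul (hNd x)
  refine ⟨h, hhd, ?_, ?_⟩
  · intro x hx
    have hx1 : ‖x‖ < 1 := by simpa using hx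
    rw [mem_ball_zero_iff]
    have hid := aut_identity w x hs0.le hs2
    have hd := hden x hx
    have hlt : ‖N x‖ ^ 2 < ‖(1 - inner ℂ w x : ℂ)‖ ^ 2 := by
      have hx2 : 0 < 1 - ‖x‖ ^ 2 := by nlinarith [norm_nonneg x]
      have : 0 < s ^ 2 * (1 - ‖x‖ ^ 2) := by positivity
      change ‖w - (s : ℂ) • x - (inner ℂ w x / (1 + s) : ℂ) • w‖ ^ 2 < _
      linarith
    have hlt2 : ‖N x‖ < ‖(1 - inner ℂ w x : ℂ)‖ := lt_of_pow_lt_pow_left₀ 2 (norm_nonneg _) hlt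
    have hpos : 0 < ‖(1 - inner ℂ w x : ℂ)‖ := norm_pos_iff.2 hd
    change ‖((1 - inner ℂ w x : ℂ)⁻¹) • N x‖ < 1
    rw [norm_smul, norm_inv, inv_mul_lt_iff₀ hpos, mul_one]
    exact hlt2
  · intro v
    have hwb : w ∈ ball (0 : E) 1 := by simpa using hw
    have hww : (inner ℂ w w : ℂ) = ((1 - s ^ 2 : ℝ) : ℂ) := by
      rw [inner_self_eq_norm_sq_to_K, show (1 - s ^ 2 : ℝ) = ‖w‖ ^ 2 by linarith]
      push_cast
      rfl
    have hNw : N w = 0 := by
      change w - (s : ℂ) • w - ((inner ℂ w w : ℂ) / (1 + s)) • w = 0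
      rw [hww]
      have : (((1 - s ^ 2 : ℝ) : ℂ) / (1 + s)) = 1 - (s : ℂ) := by
        rw [div_eq_iff h1sc]; push_cast; ring
      rw [this, sub_smul, one_smul]; abel
    have hNd' : HasFDerivAt N (fderiv ℂ N w) w := (hNd w).hasFDerivAt
    have hinv : HasFDerivAt (fun x : E => (1 - inner ℂ w x : ℂ)⁻¹)
        (fderiv ℂ (fun x : E => (1 - inner ℂ w x : ℂ)⁻¹) w) w :=
      (((differentiableAt_const _).sub (hinner w)).inv (hden w hwb)).hasFDerivAt
    have hd1 : fderiv ℂ h w v = ((1 - inner ℂ w w : ℂ)⁻¹) • fderiv ℂ N w v := by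
      have := (hinv.smul hNd').fderiv
      have h2 : fderiv ℂ h w = (1 - inner ℂ w w : ℂ)⁻¹ • fderiv ℂ N w +
          (fderiv ℂ (fun x : E => (1 - inner ℂ w x : ℂ)⁻¹) w).smulRight (N w) := this
      rw [h2, hNw]
      simp
    have hd2 : fderiv ℂ N w v = -((s : ℂ) • v) - ((inner ℂ w v : ℂ) / (1 + s)) • w := by
      have e1 : HasFDerivAt N ((0 : E →L[ℂ] E) - (s : ℂ) • ContinuousLinearMap.id ℂ E -
          (((1 + (s : ℂ))⁻¹) • (innerSL ℂ w)).smulRight w) w := by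
        have a1 : HasFDerivAt (fun _ : E => w) (0 : E →L[ℂ] E) w := hasFDerivAt_const _ _
        have a2 : HasFDerivAt (fun x : E => (s : ℂ) • x) ((s : ℂ) • ContinuousLinearMap.id ℂ E) w :=
          (hasFDerivAt_id w).const_smul _
        have a3 : HasFDerivAt (fun x : E => ((inner ℂ w x : ℂ) / (1 + s)) • w)
            ((((1 + (s : ℂ))⁻¹) • (innerSL ℂ w)).smulRight w) w := by
          have b1 : HasFDerivAt (fun x : E => ((inner ℂ w x : ℂ) / (1 + s)))
              (((1 + (s : ℂ))⁻¹) • (innerSL ℂ w)) w := by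
            have := ((innerSL ℂ w).hasFDerivAt (x := w)).const_smul ((1 + (s : ℂ))⁻¹)
            refine this.congr_of_eventuallyEq (Filter.Eventually.of_forall fun x => ?_)
            simp [div_eq_inv_mul]
          exact b1.smul_const w
        exact (a1.sub a2).sub a3
      rw [e1.fderiv]
      simp [div_eq_inv_mul]
    have hnorm : ‖fderiv ℂ N w v‖ ^ 2 = s ^ 2 * ‖v‖ ^ 2 + ‖(inner ℂ w v : ℂ)‖ ^ 2 := by
      have hre : fderiv ℂ N w v = -((s : ℂ) • v + ((inner ℂ w v : ℂ) / (1 + s)) • w) := by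
        rw [hd2]; abel
      rw [hre, norm_neg, @norm_add_sq ℂ, norm_smul, norm_smul, inner_smul_left, inner_smul_right]
      have hsn : ‖(s : ℂ)‖ = s := by rw [Complex.norm_real, Real.norm_of_nonneg hs0.le]
      have hvw : (inner ℂ v w : ℂ) = (starRingEnd ℂ) (inner ℂ w v) := (inner_conj_symm _ _).symm
      rw [hsn, hvw]
      set τ : ℂ := inner ℂ w v with hτ
      have hwn : ‖w‖ ^ 2 = 1 - s ^ 2 := by linarith
      have e1 : ‖τ / (1 + (s : ℂ))‖ ^ 2 = ‖τ‖ ^ 2 / (1 + s) ^ 2 := by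
        rw [norm_div, div_pow]
        congr 2
        rw [show (1 + (s : ℂ)) = ((1 + s : ℝ) : ℂ) by push_cast; ring, Complex.norm_real,
          Real.norm_of_nonneg (by positivity)]
      have e2 : RCLike.re ((starRingEnd ℂ) (s : ℂ) * (τ / (1 + (s : ℂ)) * (starRingEnd ℂ) τ))
          = s * (‖τ‖ ^ 2 / (1 + s)) := by
        have : (starRingEnd ℂ) (s : ℂ) * (τ / (1 + (s : ℂ)) * (starRingEnd ℂ) τ)
            = ((s * (‖τ‖ ^ 2 / (1 + s)) : ℝ) : ℂ) := by
          rw [Complex.conj_ofReal]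
          have h5 : τ * (starRingEnd ℂ) τ = ((‖τ‖ ^ 2 : ℝ) : ℂ) := by
            rw [Complex.mul_conj, Complex.normSq_eq_norm_sq]
          push_cast
          rw [div_mul_eq_mul_div, h5]
          push_cast
          ring
        rw [this, RCLike.re_eq_complex_re, Complex.ofReal_re]
      rw [mul_pow, mul_pow, e1, e2, hwn]
      have h1s : (1 + s : ℝ) ≠ 0 := by positivity
      field_simp
      ring
    have hd3 : ‖(1 - inner ℂ w w : ℂ)⁻¹‖ = (s ^ 2)⁻¹ := by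
      rw [hww, norm_inv, show (1 - ((1 - s ^ 2 : ℝ) : ℂ)) = ((s ^ 2 : ℝ) : ℂ) by push_cast; ring,
        Complex.norm_real, Real.norm_of_nonneg (by positivity)]
    rw [hd1, norm_smul, hd3, mul_pow, hnorm, ← hs2]
    have hs4 : 0 < s ^ 2 := by positivity
    have : s ^ 2 * ((s ^ 2)⁻¹ ^ 2 * (s ^ 2 * ‖v‖ ^ 2 + ‖(inner ℂ w v : ℂ)‖ ^ 2))
        = ‖v‖ ^ 2 + ‖(inner ℂ w v : ℂ)‖ ^ 2 / s ^ 2 := by
      field_simp
    rw [this]
    have : 0 ≤ ‖(inner ℂ w v : ℂ)‖ ^ 2 / s ^ 2 := by positivity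
    linarith

/-- a disc through `w` in direction `v` inside the ball of radius s -/
theorem slice_disc {w v : E} {s : ℝ} (hv : ‖v‖ = 1) (hw : ‖w‖ < s) :
    ∃ τ : ℂ → ℂ, DifferentiableOn ℂ τ (ball 0 1) ∧ τ 0 = 0 ∧
      (∀ t ∈ ball (0 : ℂ) 1, ‖w + τ t • v‖ < s) ∧ (s ^ 2 - ‖w‖ ^ 2) / s ≤ ‖deriv τ 0‖ := by
  have hs : 0 < s := (norm_nonneg w).trans_lt hw
  set c0 : ℂ := inner ℂ v w with hc0
  have hc0w : ‖c0‖ ≤ ‖w‖ := by
    have := norm_inner_le_norm (𝕜 := ℂ) v w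
    rwa [hv, one_mul] at this
  have hR2 : 0 < s ^ 2 - ‖w‖ ^ 2 + ‖c0‖ ^ 2 := by
    have : ‖w‖ ^ 2 < s ^ 2 := by gcongr
    positivity [sub_pos.2 this]
  set R : ℝ := Real.sqrt (s ^ 2 - ‖w‖ ^ 2 + ‖c0‖ ^ 2) with hR
  have hR0 : 0 < R := Real.sqrt_pos.2 hR2
  have hRsq : R ^ 2 = s ^ 2 - ‖w‖ ^ 2 + ‖c0‖ ^ 2 := Real.sq_sqrt hR2.le
  have hws : ‖w‖ ^ 2 < s ^ 2 := by gcongr
  have hcR : ‖c0‖ < R := by
    apply lt_of_pow_lt_pow_left₀ 2 hR0.le
    rw [hRsq]; linarith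
  have hRs : R ≤ s := by
    apply le_of_sq_le_sq _ hs.le
    rw [hRsq]
    have : ‖c0‖ ^ 2 ≤ ‖w‖ ^ 2 := by gcongr
    linarith
  set a : ℂ := c0 / R with ha
  clear_value a
  have han : ‖a‖ < 1 := by
    rw [ha, norm_div, Complex.norm_real, Real.norm_of_nonneg hR0.le, div_lt_one hR0]
    exact hcR
  have hden : ∀ t ∈ ball (0 : ℂ) 1, (1 + (starRingEnd ℂ) a * t) ≠ 0 := by
    intro t ht h
    have h1 : (starRingEnd ℂ) a * t = -1 := by linear_combination h
    have h2 : ‖(starRingEnd ℂ) a * t‖ = 1 := by rw [h1, norm_neg, norm_one]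
    rw [norm_mul, RCLike.norm_conj] at h2
    have h3 : ‖t‖ < 1 := by simpa using ht
    nlinarith [norm_nonneg a, norm_nonneg t]
  refine ⟨fun t => R * (1 - ‖a‖ ^ 2) * t / (1 + (starRingEnd ℂ) a * t), ?_, by simp, ?_, ?_⟩
  · intro t ht
    apply DifferentiableAt.differentiableWithinAt
    refine DifferentiableAt.fun_div ?_ ?_ (hden t ht)
    · fun_prop
    · fun_prop
  · intro t ht
    have ht1 : ‖t‖ < 1 := by simpa using ht
    set τ : ℂ := R * (1 - ‖a‖ ^ 2) * t / (1 + (starRingEnd ℂ) a * t) with hτ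
    have hd := hden t ht
    have hRc : (R : ℂ) ≠ 0 := by exact_mod_cast hR0.ne'
    have haa : (starRingEnd ℂ) a * a = ((‖a‖ ^ 2 : ℝ) : ℂ) := by
      rw [mul_comm, Complex.mul_conj, Complex.normSq_eq_norm_sq]
    have h1 : τ + c0 = R * ((t + a) / (1 + (starRingEnd ℂ) a * t)) := by
      have hc : c0 = R * a := by rw [ha]; field_simp
      push_cast at haa
      rw [hτ, hc, div_add' _ _ _ hd, mul_div_assoc', div_left_inj' hd]
      linear_combination ((R : ℂ) * t) * haa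
    have h2 : ‖(t + a) / (1 + (starRingEnd ℂ) a * t)‖ < 1 := by
      rw [norm_div, div_lt_one (norm_pos_iff.2 hd)]
      apply lt_of_pow_lt_pow_left₀ 2 (norm_nonneg _)
      rw [← Complex.normSq_eq_norm_sq, ← Complex.normSq_eq_norm_sq, Complex.normSq_apply,
        Complex.normSq_apply]
      have h3 : t.re ^ 2 + t.im ^ 2 < 1 := by
        have : ‖t‖ ^ 2 < 1 := by nlinarith [norm_nonneg t]
        rwa [← Complex.normSq_eq_norm_sq, Complex.normSq_apply, ← pow_two, ← pow_two] at this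
      have h4 : a.re ^ 2 + a.im ^ 2 < 1 := by
        have : ‖a‖ ^ 2 < 1 := by nlinarith [norm_nonneg a]
        rwa [← Complex.normSq_eq_norm_sq, Complex.normSq_apply, ← pow_two, ← pow_two] at this
      simp only [Complex.add_re, Complex.add_im, Complex.one_re, Complex.one_im, Complex.mul_re,
        Complex.mul_im, Complex.conj_re, Complex.conj_im]
      nlinarith [mul_pos (sub_pos.2 h3) (sub_pos.2 h4)]
    have h3 : ‖τ + c0‖ < R := by
      rw [h1, norm_mul, Complex.norm_real, Real.norm_of_nonneg hR0.le]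
      nlinarith
    change ‖w + τ • v‖ < s
    apply lt_of_pow_lt_pow_left₀ 2 hs.le
    rw [@norm_add_sq ℂ, norm_smul, hv, inner_smul_right]
    have hwv : (inner ℂ w v : ℂ) = (starRingEnd ℂ) c0 := (inner_conj_symm _ _).symm
    rw [hwv]
    have h4 : ‖τ + c0‖ ^ 2 = ‖τ‖ ^ 2 + 2 * RCLike.re (τ * (starRingEnd ℂ) c0) + ‖c0‖ ^ 2 := by
      rw [← Complex.normSq_eq_norm_sq, Complex.normSq_add, Complex.normSq_eq_norm_sq,
        Complex.normSq_eq_norm_sq]
      simp only [RCLike.re_eq_complex_re]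
      ring
    have h5 : ‖τ + c0‖ ^ 2 < R ^ 2 := by gcongr
    rw [h4, hRsq] at h5
    simp only [RCLike.re_eq_complex_re] at h5 ⊢
    nlinarith
  · have hder : HasDerivAt (fun t : ℂ => R * (1 - ‖a‖ ^ 2) * t / (1 + (starRingEnd ℂ) a * t))
        ((R : ℂ) * (1 - ‖a‖ ^ 2)) 0 := by
      have h1 : HasDerivAt (fun t : ℂ => (R : ℂ) * (1 - ‖a‖ ^ 2) * t) ((R : ℂ) * (1 - ‖a‖ ^ 2)) 0 := by
        simpa using (hasDerivAt_id (0 : ℂ)).const_mul ((R : ℂ) * (1 - ‖a‖ ^ 2))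
      have h2 : HasDerivAt (fun t : ℂ => 1 + (starRingEnd ℂ) a * t) ((starRingEnd ℂ) a) 0 := by
        simpa using ((hasDerivAt_id (0 : ℂ)).const_mul ((starRingEnd ℂ) a)).const_add 1
      have := h1.fun_div h2 (by simp)
      simpa using this
    rw [hder.deriv]
    have ha2 : ‖a‖ ^ 2 = ‖c0‖ ^ 2 / R ^ 2 := by
      rw [ha, norm_div, Complex.norm_real, Real.norm_of_nonneg hR0.le, div_pow]
    have h1 : (R : ℂ) * (1 - ‖a‖ ^ 2) = ((R * (1 - ‖a‖ ^ 2) : ℝ) : ℂ) := by push_cast; ring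
    have hnn : 0 ≤ R * (1 - ‖a‖ ^ 2) := by
      have : ‖a‖ ^ 2 < 1 := by nlinarith [norm_nonneg a]
      nlinarith
    rw [h1, Complex.norm_real, Real.norm_of_nonneg hnn, ha2]
    have h2 : R * (1 - ‖c0‖ ^ 2 / R ^ 2) = (s ^ 2 - ‖w‖ ^ 2) / R := by
      field_simp
      rw [hRsq]; ring
    rw [h2]
    have : 0 < s ^ 2 - ‖w‖ ^ 2 := by linarith
    gcongr

end Pool.Agent.W737.SQ
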