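import Pool.Agent.W737.SQ.Main

/-!
# The contradiction at a weakly pseudoconvex point (project SQ)
-/

set_option autoImplicit false

open Metric Set Filter Topology

namespace Pool.Agent.W737.SQ

variable {n : ℕ}

theorem core (hN : S_normal) (hD : S_disc) (hL : S_levi) (hF : S_flat) (hJ : S_jet)
    {Ω : Set (V n)} {ρ : V n → ℝ} (H : Dom Ω ρ) (hsq : SqLim Ω) {p : V n} (hp : p ∈ frontier Ω)
    {W : V n} (hW : W ≠ 0) (hW1 : fderiv ℝ ρ p W = 0) (hW2 : fderiv ℝ ρ p (Complex.I • W) = 0)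
    (hW3 : H4 ρ p W = 0) : False := by
  have hρc : Continuous ρ := H.smooth.continuous
  have hΩ : IsOpen Ω := by
    rw [H.eq]; exact isOpen_lt hρc continuous_const
  have hpΩ : p ∉ Ω := by
    rw [hΩ.frontier_eq] at hp
    exact hp.2
  have hρp : ρ p = 0 := by
    have h1 : 0 ≤ ρ p := by
      by_contra h
      push Not at h
      exact hpΩ (by rw [H.eq]; exact h)
    have h2 : p ∈ closure Ω := frontier_subset_closure hp
    have h3 : closure Ω ⊆ {x | ρ x ≤ 0} := by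
      apply closure_minimal _ (isClosed_le hρc continuous_const)
      intro x hx
      rw [H.eq] at hx
      have hx' : ρ x < 0 := hx
      exact hx'.le
    exact le_antisymm (h3 h2) h1
  obtain ⟨e, he, heI⟩ := exists_e (H.nz p hp)
  obtain ⟨Γ, Ξ, K0, r0, hK0, hr0, hΓd, hΓ0, hΞd, hsl⟩ := slice_data hF hJ H.smooth hρp he heI 7
  obtain ⟨c1, rA, hrA, hrAr0, hreg⟩ := exists_reg H hK0 hr0 (fun ζ h => (hsl ζ h).1)
    (fun ζ h => (hsl ζ h).2.2)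
  obtain ⟨K1, R1, hK1, hR1, hN1⟩ := hN n Ω ρ H p hp 11
  obtain ⟨K2, R2, hK2, hR2, hD2⟩ := hD n ρ p (‖tang ρ e W p‖ + 1) H.smooth (H.nz p hp)
    (by positivity)
  have hΓC : ContDiff ℂ ((⊤ : ℕ∞) : WithTop ℕ∞) Γ := hΓd.contDiff
  have hΓR : ContDiff ℝ ((⊤ : ℕ∞) : WithTop ℕ∞) Γ := hΓC.restrict_scalars ℝ
  obtain ⟨K3, r3, hK3, hr3, hL3⟩ := hL n Ω ρ H p hp e W hW1 hW2 hW3 Γ hΓR hΓ0
    ⟨K0, min r0 1, by positivity, fun y hy => by
      have hy1 : |y| < r0 := hy.trans_le (min_le_left _ _)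
      have hy2 : |y| ≤ 1 := (hy.trans_le (min_le_right _ _)).le
      have hn : ‖Complex.I * (y : ℂ)‖ = |y| := by
        rw [norm_mul, Complex.norm_I, one_mul, Complex.norm_real, Real.norm_eq_abs]
      have h1 := (hsl (Complex.I * (y : ℂ)) (by rw [hn]; exact hy1)).1
      have h2 : (Complex.I * (y : ℂ)).re = 0 := by simp
      rw [h2, hn, add_zero, abs_zero, zero_mul, zero_add] at h1
      refine h1.trans ?_
      have h3 : |y| ^ 7 ≤ |y| ^ 2 := pow_le_pow_of_le_one (abs_nonneg _) hy2 (by norm_num)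
      rw [sq_abs] at h3
      gcongr⟩
  obtain ⟨D, hD0, hDb⟩ : ∃ D : ℝ, 0 < D ∧ ∀ x ∈ Ω, ‖x‖ < D := by
    obtain ⟨R, hR⟩ := H.bdd.exists_norm_le
    exact ⟨|R| + 1, by positivity, fun x hx => by
      have := hR x hx
      have := le_abs_self R
      linarith⟩
  obtain ⟨ε, hε0, hε1, hε2⟩ := exists_eps
  obtain ⟨δs, hδs, hsqδ⟩ := hsq ε hε0
  -- the holomorphic vector field
  set Wf : ℂ → V n := fun ζ => (Ξ ζ e) • W - (Ξ ζ W) • e with hWf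
  have hWfd : Differentiable ℂ Wf := by
    apply Differentiable.sub
    · exact (hΞd.clm_apply (differentiable_const _)).smul_const _
    · exact (hΞd.clm_apply (differentiable_const _)).smul_const _
  have hΞ0 : Ξ 0 = ellL ρ p := by
    have := (hsl 0 (by simpa using hr0)).2.1
    rw [hΓ0] at this
    simp only [Complex.zero_re, abs_zero, norm_zero, zero_pow (by norm_num : (7 : ℕ) ≠ 0),
      add_zero, mul_zero] at this
    exact sub_eq_zero.1 (norm_le_zero_iff.1 this)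
  have hellp : ellL ρ p e = -1 := by
    rw [ellL_apply, ell, he, heI]; simp
  have hellW : ellL ρ p W = 0 := by
    rw [ellL_apply, ell, hW1, hW2]; simp
  have hWf0 : Wf 0 = -W := by
    simp [hWf, hΞ0, hellp, hellW]
  have hWn : 0 < ‖W‖ := norm_pos_iff.2 hW
  have htang : ∀ z : V n, tang ρ e W z = (ellL ρ z e) • W - (ellL ρ z W) • e := by
    intro z
    rw [tang, ellL_apply, ellL_apply]
  have hdiff : ∀ ζ : ℂ, ‖Wf ζ - tang ρ e W (Γ ζ)‖ ≤ 2 * ‖e‖ * ‖W‖ * ‖Ξ ζ - ellL ρ (Γ ζ)‖ := by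
    intro ζ
    have h1 : Wf ζ - tang ρ e W (Γ ζ) = ((Ξ ζ - ellL ρ (Γ ζ)) e) • W
        - ((Ξ ζ - ellL ρ (Γ ζ)) W) • e := by
      rw [htang]
      simp only [hWf, _root_.sub_apply, sub_smul]
      abel
    rw [h1]
    refine (norm_sub_le _ _).trans ?_
    rw [norm_smul, norm_smul]
    have h2 := (Ξ ζ - ellL ρ (Γ ζ)).le_opNorm e
    have h3 := (Ξ ζ - ellL ρ (Γ ζ)).le_opNorm W
    have h4 := mul_le_mul_of_nonneg_right h2 (norm_nonneg W)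
    have h5 := mul_le_mul_of_nonneg_right h3 (norm_nonneg e)
    linarith
  -- eventual facts
  have hev : ∀ᶠ ζ : ℂ in 𝓝 0, (‖W‖ / 2 < ‖Wf ζ‖ ∧ ‖Wf ζ‖ < 2 * ‖W‖) ∧ (1 / 2 < ‖Ξ ζ e‖) ∧
      (‖tang ρ e W (Γ ζ)‖ < ‖tang ρ e W p‖ + 1) ∧ ‖Γ ζ - p‖ < min (min R1 R2) δs := by
    have hc1 : ContinuousAt (fun ζ => ‖Wf ζ‖) 0 := hWfd.continuous.norm.continuousAt
    have hv1 : ‖Wf 0‖ = ‖W‖ := by rw [hWf0, norm_neg]
    have hc2 : ContinuousAt (fun ζ => ‖Ξ ζ e‖) 0 :=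
      ((hΞd.clm_apply (differentiable_const e)).continuous.norm).continuousAt
    have hv2 : ‖Ξ 0 e‖ = 1 := by rw [hΞ0, hellp]; simp
    have hc3 : Continuous (fun ζ : ℂ => ‖tang ρ e W (Γ ζ)‖) := by
      have h1 : Continuous (fun z => ellL ρ z) := (contDiff_ellL H.smooth).continuous
      have h2 : (fun ζ : ℂ => tang ρ e W (Γ ζ)) = fun ζ => (ellL ρ (Γ ζ) e) • W
          - (ellL ρ (Γ ζ) W) • e := by
        funext ζ; rw [htang]
      rw [show (fun ζ : ℂ => ‖tang ρ e W (Γ ζ)‖) = fun ζ => ‖(fun ζ : ℂ => tang ρ e W (Γ ζ)) ζ‖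
        from rfl, h2]
      have h3 : Continuous (fun ζ : ℂ => ellL ρ (Γ ζ)) := h1.comp hΓd.continuous
      exact (((h3.clm_apply continuous_const).smul continuous_const).sub
        ((h3.clm_apply continuous_const).smul continuous_const)).norm
    have hc4 : Continuous (fun ζ : ℂ => ‖Γ ζ - p‖) := (hΓd.continuous.sub continuous_const).norm
    refine ((hc1.eventually_const_lt (by change _ < ‖Wf 0‖; rw [hv1]; linarith)).and
      (hc1.eventually_lt_const (by change ‖Wf 0‖ < _; rw [hv1]; linarith))).and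
      ((hc2.eventually_const_lt (by change _ < ‖Ξ 0 e‖; rw [hv2]; norm_num)).and
      ((hc3.continuousAt.eventually_lt_const
          (by change ‖tang ρ e W (Γ 0)‖ < _; rw [hΓ0]; linarith)).and
      (hc4.continuousAt.eventually_lt_const ?_)))
    change ‖Γ 0 - p‖ < _
    rw [hΓ0, sub_self, norm_zero]
    positivity
  obtain ⟨rB, hrB, hB⟩ := Metric.eventually_nhds_iff_ball.1 hev
  set r2 : ℝ := min (min rA rB) (min (min r0 r3) (1 / 4)) with hr2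
  have hr20 : 0 < r2 := by positivity
  have hr2A : r2 ≤ rA := (min_le_left _ _).trans (min_le_left _ _)
  have hr2B : r2 ≤ rB := (min_le_left _ _).trans (min_le_right _ _)
  have hr2r0 : r2 ≤ r0 := (min_le_right _ _).trans ((min_le_left _ _).trans (min_le_left _ _))
  have hr2r3 : r2 ≤ r3 := (min_le_right _ _).trans ((min_le_left _ _).trans (min_le_right _ _))
  have hr24 : r2 ≤ 1 / 4 := (min_le_right _ _).trans (min_le_right _ _)
  have hreg2 : Reg Ω ρ Γ c1 r2 := hreg.mono hr2A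
  have hc1 := hreg2.c1pos
  have hBz : ∀ ζ : ℂ, ‖ζ‖ < r2 → (‖W‖ / 2 < ‖Wf ζ‖ ∧ ‖Wf ζ‖ < 2 * ‖W‖) ∧ (1 / 2 < ‖Ξ ζ e‖) ∧
      (‖tang ρ e W (Γ ζ)‖ < ‖tang ρ e W p‖ + 1) ∧ ‖Γ ζ - p‖ < min (min R1 R2) δs := fun ζ hζ =>
    hB ζ (by rw [mem_ball_zero_iff]; exact hζ.trans_le hr2B)
  -- the difference of Xi and ell
  have hΞx : ∀ ζ : ℂ, ‖ζ‖ < r2 → ‖ζ‖ ^ 6 < ζ.re → ‖Ξ ζ - ellL ρ (Γ ζ)‖ ≤ 2 * K0 * ζ.re := by
    intro ζ hζ hx
    have hx0 : 0 < ζ.re := lt_of_le_of_lt (by positivity) hx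
    have h1 := (hsl ζ (hζ.trans_le hr2r0)).2.1
    rw [abs_of_pos hx0] at h1
    have h2 : ‖ζ‖ ^ 7 ≤ ζ.re := by
      have h3 : ‖ζ‖ ^ 7 ≤ ‖ζ‖ ^ 6 :=
        pow_le_pow_of_le_one (norm_nonneg _) (by linarith) (by norm_num)
      linarith
    calc _ ≤ K0 * (ζ.re + ‖ζ‖ ^ 7) := h1
      _ ≤ K0 * (ζ.re + ζ.re) := by gcongr
      _ = _ := by ring
  -- bound of Nm
  set K6 : ℝ := 3 ^ 12 * (K1 * 2 ^ 11 + K1 * 2 ^ 11 + (2 * K0 * D) ^ 12) with hK6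
  have hK6p : 0 < K6 := by positivity
  have hNm : ∀ ζ : ℂ, ‖ζ‖ < r2 → ‖ζ‖ ^ 6 < ζ.re → Nm Ω (Γ ζ) (Ξ ζ) ^ 12 ≤ K6 * ζ.re ^ 11 := by
    intro ζ hζ hx
    have hx0 : 0 < ζ.re := lt_of_le_of_lt (by positivity) hx
    have hx1 : ζ.re ≤ 1 := by
      have := Complex.re_le_norm ζ
      linarith
    obtain ⟨b, hb0, hb⟩ := exists_root12 (a := K6 * ζ.re ^ 11) (by positivity)
    rw [← hb]
    have h0 : Nm Ω (Γ ζ) (Ξ ζ) ≤ b := by
      apply nm_le hb0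
      intro φ hφ hm hφ0
      have hpR : ‖φ 0 - p‖ < R1 := by
        rw [hφ0]
        exact (hBz ζ hζ).2.2.2.trans_le ((min_le_left _ _).trans (min_le_left _ _))
      obtain ⟨h1, h2⟩ := hN1 φ hφ hm hpR
      rw [hφ0] at h1 h2
      have h3 := norm_deriv_disc_le hDb hφ hm
      set v := deriv φ 0 with hv
      have h4 : ‖Ξ ζ v‖ ≤ |fderiv ℝ ρ (Γ ζ) v| + |fderiv ℝ ρ (Γ ζ) (Complex.I • v)|
          + 2 * K0 * D * ζ.re := by
        have e1 : Ξ ζ v = ellL ρ (Γ ζ) v + (Ξ ζ - ellL ρ (Γ ζ)) v := by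
          simp only [_root_.sub_apply]; ring
        have e2 : ‖ellL ρ (Γ ζ) v‖ ≤ |fderiv ℝ ρ (Γ ζ) v| +
            |fderiv ℝ ρ (Γ ζ) (Complex.I • v)| := by
          rw [ellL_apply, ell]
          refine (norm_sub_le _ _).trans ?_
          rw [norm_mul, Complex.norm_I, one_mul, Complex.norm_real, Complex.norm_real,
            Real.norm_eq_abs, Real.norm_eq_abs]
        have e3 : ‖(Ξ ζ - ellL ρ (Γ ζ)) v‖ ≤ 2 * K0 * D * ζ.re := by
          refine (ContinuousLinearMap.le_opNorm _ _).trans ?_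
          calc _ ≤ (2 * K0 * ζ.re) * D := by
                gcongr
                exact hΞx ζ hζ hx
            _ = _ := by ring
        rw [e1]
        exact (norm_add_le _ _).trans (add_le_add e2 e3)
      have hlo := hreg2.lo ζ hζ hx
      have hhi := hreg2.hi ζ hζ hx
      have hpos : 0 ≤ -ρ (Γ ζ) := by linarith
      have h5 : (-ρ (Γ ζ)) ^ 11 ≤ (2 * ζ.re) ^ 11 := by gcongr
      have h6 : K1 * (-ρ (Γ ζ)) ^ 11 ≤ K1 * 2 ^ 11 * ζ.re ^ 11 := by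
        calc _ ≤ K1 * (2 * ζ.re) ^ 11 := by gcongr
          _ = _ := by ring
      have h7 : (2 * K0 * D * ζ.re) ^ 12 ≤ (2 * K0 * D) ^ 12 * ζ.re ^ 11 := by
        rw [mul_pow]
        have : ζ.re ^ 12 ≤ ζ.re ^ 11 := pow_le_pow_of_le_one hx0.le hx1 (by norm_num)
        gcongr
      have h8 : ‖Ξ ζ v‖ ^ 12 ≤ b ^ 12 := by
        rw [hb]
        calc ‖Ξ ζ v‖ ^ 12 ≤ (|fderiv ℝ ρ (Γ ζ) v| + |fderiv ℝ ρ (Γ ζ) (Complex.I • v)|
              + 2 * K0 * D * ζ.re) ^ 12 := by gcongr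
          _ ≤ 3 ^ 12 * (|fderiv ℝ ρ (Γ ζ) v| ^ 12 + |fderiv ℝ ρ (Γ ζ) (Complex.I • v)| ^ 12
              + (2 * K0 * D * ζ.re) ^ 12) := pow12_sum _ _ _ (abs_nonneg _) (abs_nonneg _)
                (by positivity)
          _ ≤ 3 ^ 12 * (K1 * 2 ^ 11 * ζ.re ^ 11 + K1 * 2 ^ 11 * ζ.re ^ 11
              + (2 * K0 * D) ^ 12 * ζ.re ^ 11) := by
              gcongr
              · exact h1.trans h6
              · exact h2.trans h6
          _ = K6 * ζ.re ^ 11 := by rw [hK6]; ring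
      exact (pow_le_pow_iff_left₀ (norm_nonneg _) hb0 (by norm_num)).1 h8
    exact pow_le_pow_left₀ (nm_nonneg _ _ _) h0 12
  -- crude bound of Car
  have hCar : ∀ ζ : ℂ, ‖ζ‖ < r2 → ‖ζ‖ ^ 6 < ζ.re → ∀ X : V n,
      Car Ω (Γ ζ) X ≤ ‖X‖ / (c1 * ζ.re) := by
    intro ζ hζ hx X
    have hx0 : 0 < ζ.re := lt_of_le_of_lt (by positivity) hx
    exact car_le_div hΩ (by positivity) (hreg2.ball ζ hζ hx)
  -- sharp bound of Car near the boundary of the region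
  set c2 : ℝ := min 1 (min (1 / (6 * K2 * K3)) (1 / (2 * K2))) with hc2
  have hc20 : 0 < c2 := by positivity
  have hc21 : c2 ≤ 1 := min_le_left _ _
  have hc2a : c2 ≤ 1 / (6 * K2 * K3) := (min_le_right _ _).trans (min_le_left _ _)
  have hc2b : c2 ≤ 1 / (2 * K2) := (min_le_right _ _).trans (min_le_right _ _)
  set K5 : ℝ := 1 / c2 + 4 * ‖e‖ * ‖W‖ * K0 / c1 with hK5
  have hK5p : 0 < K5 := by positivity
  have hCarN : ∀ (ζ : ℂ) (δ : ℝ), 0 < δ → ‖ζ‖ < r2 → (‖ζ‖ + δ) ^ 6 ≤ ζ.re →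
      Car Ω (Γ ζ) (Wf ζ) ≤ K5 / (‖ζ‖ + δ) ^ 2 := by
    intro ζ δ hδ hζ hTx
    set T := ‖ζ‖ + δ with hT
    have hT0 : 0 < T := by positivity
    have hx : ‖ζ‖ ^ 6 < ζ.re := by
      refine lt_of_lt_of_le ?_ hTx
      gcongr
      linarith
    have hx0 : 0 < ζ.re := lt_of_le_of_lt (by positivity) hx
    have hxn : ζ.re ≤ ‖ζ‖ := Complex.re_le_norm _
    have hT1 : T ≤ 1 := by
      by_contra hcon
      push Not at hcon
      have : 1 ≤ T ^ 6 := one_le_pow₀ hcon.le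
      linarith
    have hz : Γ ζ ∈ Ω := hreg2.mem ζ hζ hx
    have hlo := hreg2.lo ζ hζ hx
    have hρneg : ρ (Γ ζ) < 0 := by linarith
    have hBζ := hBz ζ hζ
    have hell : ∀ z X : V n, ellL ρ z X = 0 → fderiv ℝ ρ z X = 0 ∧
        fderiv ℝ ρ z (Complex.I • X) = 0 := by
      intro z X h
      rw [ellL_apply, ell] at h
      have a1 := congrArg Complex.re h
      have a2 := congrArg Complex.im h
      simp at a1 a2
      exact ⟨a1, a2⟩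
    have htan : ellL ρ (Γ ζ) (tang ρ e W (Γ ζ)) = 0 := by
      rw [htang, map_sub, map_smul, map_smul]
      simp only [smul_eq_mul]
      ring
    obtain ⟨ht1, ht2⟩ := hell _ _ htan
    have hlev := hL3 ζ (hζ.trans_le hr2r3)
    rw [abs_of_pos hx0] at hlev
    have hlev2 : max 0 (H4 ρ (Γ ζ) (tang ρ e W (Γ ζ))) ≤ K3 * (‖ζ‖ ^ 2 + ζ.re) :=
      max_le (by positivity) hlev
    have hdisc := hD2 (Γ ζ) (hBζ.2.2.2.trans_le ((min_le_left _ _).trans (min_le_right _ _))) hρneg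
      (tang ρ e W (Γ ζ)) hBζ.2.2.1.le ht1 ht2 (c2 * T ^ 2) (by positivity)
      (by
        have : T ^ 2 ≤ 1 := pow_le_one₀ hT0.le hT1
        nlinarith)
      (by
        have h1 : K2 * max 0 (H4 ρ (Γ ζ) (tang ρ e W (Γ ζ))) * (c2 * T ^ 2) ^ 2 ≤
            K2 * (K3 * (‖ζ‖ ^ 2 + ζ.re)) * (c2 * T ^ 2) ^ 2 := by gcongr
        refine h1.trans ?_
        have h2 : c2 ^ 2 ≤ 1 / (6 * K2 * K3) := by nlinarith
        have h3 : K2 * K3 * c2 ^ 2 ≤ 1 / 6 := by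
          calc K2 * K3 * c2 ^ 2 ≤ K2 * K3 * (1 / (6 * K2 * K3)) := by gcongr
            _ = 1 / 6 := by field_simp
        have hζT : ‖ζ‖ ^ 2 * T ^ 4 ≤ ζ.re := by
          calc ‖ζ‖ ^ 2 * T ^ 4 ≤ T ^ 2 * T ^ 4 := by
                gcongr
                linarith
            _ = T ^ 6 := by ring
            _ ≤ ζ.re := hTx
        have hxT : ζ.re * T ^ 4 ≤ ζ.re := by
          have : T ^ 4 ≤ 1 := pow_le_one₀ hT0.le hT1
          nlinarith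
        calc K2 * (K3 * (‖ζ‖ ^ 2 + ζ.re)) * (c2 * T ^ 2) ^ 2
            = (K2 * K3 * c2 ^ 2) * (‖ζ‖ ^ 2 * T ^ 4 + ζ.re * T ^ 4) := by ring
          _ ≤ (1 / 6) * (ζ.re + ζ.re) := by gcongr
          _ ≤ -ρ (Γ ζ) := by linarith)
      (by
        have h2 : c2 ^ 3 ≤ c2 := by
          have := pow_le_pow_of_le_one hc20.le hc21 (show 1 ≤ 3 by norm_num)
          simpa using this
        have h3 : K2 * c2 ≤ 1 / 2 := by
          calc K2 * c2 ≤ K2 * (1 / (2 * K2)) := by gcongr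
            _ = 1 / 2 := by field_simp
        calc K2 * (c2 * T ^ 2) ^ 3 = (K2 * c2 ^ 3) * T ^ 6 := by ring
          _ ≤ (K2 * c2) * T ^ 6 := by gcongr
          _ ≤ (1 / 2) * ζ.re := by gcongr
          _ ≤ -ρ (Γ ζ) := by linarith)
    obtain ⟨ψ, hψd, hψ0, hψ1, hψm⟩ := hdisc
    have hr' : 0 < c2 * T ^ 2 := by positivity
    have hcar1 : Car Ω (Γ ζ) (tang ρ e W (Γ ζ)) ≤ 1 / (c2 * T ^ 2) := by
      apply car_le_of_disc hΩ hr' hψd.differentiableOn _ hψ0 hψ1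
      intro t ht
      rw [mem_ball_zero_iff] at ht
      rw [H.eq]
      exact hψm t ht
    have hcar2 : Car Ω (Γ ζ) (Wf ζ - tang ρ e W (Γ ζ)) ≤ 4 * ‖e‖ * ‖W‖ * K0 / c1 := by
      refine (hCar ζ hζ hx _).trans ?_
      rw [div_le_div_iff₀ (by positivity) hc1]
      have h1 := hdiff ζ
      have h2 := hΞx ζ hζ hx
      have h3 : ‖Wf ζ - tang ρ e W (Γ ζ)‖ ≤ 2 * ‖e‖ * ‖W‖ * (2 * K0 * ζ.re) :=
        h1.trans (by gcongr)
      calc ‖Wf ζ - tang ρ e W (Γ ζ)‖ * c1 ≤ 2 * ‖e‖ * ‖W‖ * (2 * K0 * ζ.re) * c1 := by gcongr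
        _ = 4 * ‖e‖ * ‖W‖ * K0 * (c1 * ζ.re) := by ring
    have hsum : Car Ω (Γ ζ) (Wf ζ) ≤ 1 / (c2 * T ^ 2) + 4 * ‖e‖ * ‖W‖ * K0 / c1 := by
      have h1 : Wf ζ = tang ρ e W (Γ ζ) + (Wf ζ - tang ρ e W (Γ ζ)) := by abel
      have h2 := car_add_le hΩ hz (tang ρ e W (Γ ζ)) (Wf ζ - tang ρ e W (Γ ζ))
      rw [← h1] at h2
      linarith
    refine hsum.trans ?_
    rw [hK5, add_div]
    have h1 : 1 / (c2 * T ^ 2) = 1 / c2 / T ^ 2 := by field_simp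
    rw [h1]
    have h2 : 0 ≤ 4 * ‖e‖ * ‖W‖ * K0 / c1 := by positivity
    have h3 : T ^ 2 ≤ 1 := pow_le_one₀ hT0.le hT1
    have h4 : 4 * ‖e‖ * ‖W‖ * K0 / c1 ≤ 4 * ‖e‖ * ‖W‖ * K0 / c1 / T ^ 2 := by
      rw [le_div_iff₀ (by positivity)]
      nlinarith
    linarith
  -- the function P
  set P : ℂ → ℝ := fun ζ => (Car Ω (Γ ζ) (Wf ζ) ^ 2 * Nm Ω (Γ ζ) (Ξ ζ)) ^ 12 with hP
  have hP0 : ∀ ζ, 0 ≤ P ζ := fun ζ =>
    pow_nonneg (mul_nonneg (sq_nonneg _) (nm_nonneg _ _ _)) 12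
  have hPe : ∀ ζ, P ζ = Car Ω (Γ ζ) (Wf ζ) ^ 24 * Nm Ω (Γ ζ) (Ξ ζ) ^ 12 := by
    intro ζ
    simp only [hP]
    ring
  have hen : 0 < ‖e‖ := by
    apply norm_pos_iff.2
    rintro rfl
    rw [map_zero] at he
    norm_num at he
  refine final_abs P hP0 (r2 := r2) (K := K5 ^ 24 * (K6 * 2 ^ 11))
    (c := ((‖W‖ / 2 / D) ^ 2 * (c1 * (1 / (2 * ‖e‖)))) ^ 12) hr20 hr24 (by positivity)
    (by positivity) ?_ ?_ ?_ ?_
  · -- near
    intro ζ δ hδ hζ hTx hTx2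
    have hT0 : 0 < ‖ζ‖ + δ := by positivity
    have hx : ‖ζ‖ ^ 6 < ζ.re := by
      refine lt_of_lt_of_le ?_ hTx
      gcongr
      linarith
    have hx0 : 0 < ζ.re := lt_of_le_of_lt (by positivity) hx
    rw [hPe]
    have h1 := hCarN ζ δ hδ hζ hTx
    have h2 := hNm ζ hζ hx
    have h3 : Car Ω (Γ ζ) (Wf ζ) ^ 24 ≤ (K5 / (‖ζ‖ + δ) ^ 2) ^ 24 :=
      pow_le_pow_left₀ (car_nonneg _ _ _) h1 24
    have h4 : Nm Ω (Γ ζ) (Ξ ζ) ^ 12 ≤ K6 * (2 * (‖ζ‖ + δ) ^ 6) ^ 11 := h2.trans (by gcongr)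
    calc _ ≤ (K5 / (‖ζ‖ + δ) ^ 2) ^ 24 * (K6 * (2 * (‖ζ‖ + δ) ^ 6) ^ 11) := by
          apply mul_le_mul h3 h4 (pow_nonneg (nm_nonneg _ _ _) _) (by positivity)
      _ = K5 ^ 24 * (K6 * 2 ^ 11) * (‖ζ‖ + δ) ^ 18 := by
          field_simp
  · -- outer
    intro ε' hε'
    refine ⟨(2 * ‖W‖ / (c1 * ε')) ^ 24 * K6, fun ζ hζ hε'x hx => ?_⟩
    have hx0 : 0 < ζ.re := lt_of_le_of_lt (by positivity) hx
    have hx1 : ζ.re ≤ 1 := by
      have := Complex.re_le_norm ζ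
      linarith
    rw [hPe]
    have h1 : Car Ω (Γ ζ) (Wf ζ) ≤ 2 * ‖W‖ / (c1 * ε') := by
      refine (hCar ζ hζ hx _).trans ?_
      have := (hBz ζ hζ).1.2.le
      gcongr
    have h2 := hNm ζ hζ hx
    have h3 : Nm Ω (Γ ζ) (Ξ ζ) ^ 12 ≤ K6 := by
      refine h2.trans ?_
      have : ζ.re ^ 11 ≤ 1 := pow_le_one₀ hx0.le hx1
      nlinarith
    exact mul_le_mul (pow_le_pow_left₀ (car_nonneg _ _ _) h1 24) h3
      (pow_nonneg (nm_nonneg _ _ _) _) (by positivity)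
  · -- step
    intro ζ0 hζ0 hx2 q hq
    set x0 := ζ0.re with hx0d
    have hx0 : 0 < x0 := lt_of_le_of_lt (by positivity) hx2
    have hxn : x0 ≤ ‖ζ0‖ := Complex.re_le_norm _
    have hU : ∀ ζ ∈ ball ζ0 (x0 / 16), ‖ζ‖ < r2 ∧ ‖ζ‖ ^ 6 < ζ.re := by
      intro ζ hζ
      rw [mem_ball, dist_eq_norm] at hζ
      have h1 : |(ζ - ζ0).re| ≤ ‖ζ - ζ0‖ := Complex.abs_re_le_norm _
      rw [Complex.sub_re] at h1
      have h2 := (abs_le.1 h1).1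
      have h3 : ‖ζ‖ ≤ ‖ζ0‖ + ‖ζ - ζ0‖ := by
        have : ζ = ζ0 + (ζ - ζ0) := by ring
        conv_lhs => rw [this]
        exact norm_add_le _ _
      refine ⟨by linarith, ?_⟩
      have h4 : ‖ζ‖ ≤ (17 / 16) * ‖ζ0‖ := by linarith
      calc ‖ζ‖ ^ 6 ≤ ((17 / 16) * ‖ζ0‖) ^ 6 := by gcongr
        _ = (17 / 16) ^ 6 * ‖ζ0‖ ^ 6 := by ring
        _ ≤ (17 / 16) ^ 6 * (x0 / 2) := by gcongr; linarith
        _ < ζ.re := by nlinarith
    have hΓU : MapsTo Γ (ball ζ0 (x0 / 16)) Ω := fun ζ hζ => hreg2.mem ζ (hU ζ hζ).1 (hU ζ hζ).2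
    have hcc : ζ0 ∈ ball ζ0 (x0 / 16) := mem_ball_self (by positivity)
    have hz0 : Γ ζ0 ∈ Ω := hΓU hcc
    have hinf : Metric.infDist (Γ ζ0) Ωᶜ < δs := by
      refine lt_of_le_of_lt (Metric.infDist_le_dist_of_mem (show p ∈ Ωᶜ from hpΩ)) ?_
      rw [dist_eq_norm]
      exact (hBz ζ0 (hU ζ0 hcc).1).2.2.2.trans_le (min_le_right _ _)
    obtain ⟨f, hf, hfi, hfm, hf0, hfs⟩ := hsqδ (Γ ζ0) hz0 hinf
    obtain ⟨F, hSq⟩ := exists_sq hΩ hf hfi hfm hfs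
    have hs0 : (0 : ℝ) < 1 - ε := by linarith
    have hclosed : closedBall ζ0 (x0 / 32) ⊆ ball ζ0 (x0 / 16) :=
      closedBall_subset_ball (by linarith)
    have hfκ : ∀ ζ ∈ closedBall ζ0 (x0 / 32), ‖f (Γ ζ)‖ ≤ 1 / 2 := by
      intro ζ hζ
      have hfΓ : DifferentiableOn ℂ (fun ζ => f (Γ ζ)) (ball ζ0 (x0 / 16)) :=
        hf.comp hΓd.differentiableOn hΓU
      have hmaps : MapsTo (fun ζ => f (Γ ζ)) (ball ζ0 (x0 / 16)) (ball (f (Γ ζ0)) 1) := by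
        intro ζ' hζ'
        rw [hf0]
        exact hfm (mem_image_of_mem f (hΓU hζ'))
      have h1 := Complex.dist_le_div_mul_dist_of_mapsTo_ball hfΓ (hmaps.mono_right ball_subset_closedBall) (hclosed hζ)
      simp only [hf0, dist_zero_right] at h1
      refine h1.trans ?_
      rw [mem_closedBall] at hζ
      calc 1 / (x0 / 16) * dist ζ ζ0 ≤ 1 / (x0 / 16) * (x0 / 32) := by gcongr
        _ = 1 / 2 := by field_simp; norm_num
    obtain ⟨ζ1, hζ1, hst⟩ := hSq.step hΩ hDb hs0 (by linarith) (κ := 1 / 2) (by norm_num)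
      (by linarith) isOpen_ball (c := ζ0) (r := x0 / 32) (by positivity) hclosed
      (γ := Γ) (X := Wf) (ξ := Ξ) (q := q) hΓd.differentiableOn hWfd.differentiableOn
      hΞd.differentiableOn hq hΓU hf0 hfκ 12
    refine ⟨ζ1, hζ1, ?_⟩
    refine le_trans ?_ hst
    have h1 : 0 ≤ P ζ0 * ‖q ζ0‖ := mul_nonneg (hP0 _) (norm_nonneg _)
    exact mul_le_mul_of_nonneg_right hε2 h1
  · -- lower
    intro δ hδ hδr
    have hn : ‖(δ : ℂ)‖ = δ := by rw [Complex.norm_real, Real.norm_of_nonneg hδ.le]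
    have hζ : ‖(δ : ℂ)‖ < r2 := by rw [hn]; exact hδr
    have hx : ‖(δ : ℂ)‖ ^ 6 < (δ : ℂ).re := by
      rw [hn, Complex.ofReal_re]
      have h1 : δ ^ 5 < 1 := pow_lt_one₀ hδ.le (by linarith) (by norm_num)
      calc δ ^ 6 = δ ^ 5 * δ := by ring
        _ < 1 * δ := by gcongr
        _ = δ := one_mul _
    have hz : Γ (δ : ℂ) ∈ Ω := hreg2.mem _ hζ hx
    have h1 : ‖W‖ / 2 / D ≤ Car Ω (Γ (δ : ℂ)) (Wf δ) := by
      refine le_trans ?_ (le_car_of_bdd hΩ hz (Wf δ) hD0 hDb)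
      have := (hBz _ hζ).1.1.le
      gcongr
    have hball := hreg2.ball _ hζ hx
    rw [Complex.ofReal_re] at hball
    have h2 : c1 * δ * (1 / (2 * ‖e‖)) ≤ Nm Ω (Γ (δ : ℂ)) (Ξ δ) := by
      have h3 := le_nm_line hDb (z := Γ (δ : ℂ)) (r := c1 * δ) (by positivity) hball (Ξ δ)
        (v := ((‖e‖ : ℂ)⁻¹) • e) (by
          rw [norm_smul, norm_inv, Complex.norm_real, norm_norm, inv_mul_cancel₀ hen.ne'])
      refine le_trans ?_ h3
      rw [map_smul, norm_smul, norm_inv, Complex.norm_real, norm_norm]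
      have h4 := (hBz _ hζ).2.1.le
      have h5 : 1 / (2 * ‖e‖) = ‖e‖⁻¹ * (1 / 2) := by field_simp
      rw [h5]
      gcongr
    have h3 : (‖W‖ / 2 / D) ^ 2 * (c1 * δ * (1 / (2 * ‖e‖))) ≤
        Car Ω (Γ (δ : ℂ)) (Wf δ) ^ 2 * Nm Ω (Γ (δ : ℂ)) (Ξ δ) :=
      mul_le_mul (pow_le_pow_left₀ (by positivity) h1 2) h2 (by positivity) (sq_nonneg _)
    calc ((‖W‖ / 2 / D) ^ 2 * (c1 * (1 / (2 * ‖e‖)))) ^ 12 * δ ^ 12
        = ((‖W‖ / 2 / D) ^ 2 * (c1 * δ * (1 / (2 * ‖e‖)))) ^ 12 := by ring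
      _ ≤ (Car Ω (Γ (δ : ℂ)) (Wf δ) ^ 2 * Nm Ω (Γ (δ : ℂ)) (Ξ δ)) ^ 12 :=
          pow_le_pow_left₀ (by positivity) h3 12

end Pool.Agent.W737.SQ
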