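import Mathlib

/-!
# The abstract sup argument (project SQ)
-/

set_option autoImplicit false

open Metric Set

namespace Pool.Agent.W737.SQ

theorem one_add_le_exp {t : ℝ} (ht : |t| ≤ 1) : 1 + t ≤ Real.exp (t - t ^ 2 / 8) := by
  obtain ⟨h1, h2⟩ := abs_le.1 ht
  set y := t - t ^ 2 / 8 with hy
  have h3 : Real.exp y = Real.exp (y / 2) ^ 2 := by
    rw [← Real.exp_nat_mul]; congr 1; push_cast; ring
  have h4 : 1 + y / 2 ≤ Real.exp (y / 2) := by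
    have := Real.add_one_le_exp (y / 2); linarith
  have h5 : 0 ≤ 1 + y / 2 := by rw [hy]; nlinarith
  have h6 : (1 + y / 2) ^ 2 ≤ Real.exp (y / 2) ^ 2 := by gcongr
  rw [h3]
  refine le_trans ?_ h6
  have h7 : (1 : ℝ) / 2 ≤ (1 - t / 8) ^ 2 := by nlinarith
  have h8 : (1 + y / 2) ^ 2 = 1 + t + t ^ 2 * ((1 - t / 8) ^ 2 - 1 / 2) / 4 := by rw [hy]; ring
  rw [h8]
  have : 0 ≤ t ^ 2 * ((1 - t / 8) ^ 2 - 1 / 2) / 4 := by
    apply div_nonneg (mul_nonneg (sq_nonneg _) (by linarith)) (by norm_num)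
  linarith

theorem final_abs (P : ℂ → ℝ) (hP : ∀ ζ, 0 ≤ P ζ) {r2 K c : ℝ} (hr2 : 0 < r2) (hr2' : r2 ≤ 1 / 4)
    (hK : 0 < K) (hc : 0 < c)
    (near : ∀ (ζ : ℂ) (δ : ℝ), 0 < δ → ‖ζ‖ < r2 → (‖ζ‖ + δ) ^ 6 ≤ ζ.re →
      ζ.re ≤ 2 * (‖ζ‖ + δ) ^ 6 → P ζ ≤ K * (‖ζ‖ + δ) ^ 18)
    (outer : ∀ ε : ℝ, 0 < ε → ∃ B : ℝ, ∀ ζ : ℂ, ‖ζ‖ < r2 → ε ≤ ζ.re → ‖ζ‖ ^ 6 < ζ.re → P ζ ≤ B)
    (step : ∀ ζ0 : ℂ, ‖ζ0‖ < r2 / 2 → 2 * ‖ζ0‖ ^ 6 < ζ0.re → ∀ q : ℂ → ℂ,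
      DifferentiableOn ℂ q (ball ζ0 (ζ0.re / 16)) → ∃ ζ1 ∈ sphere ζ0 (ζ0.re / 32),
        Real.exp (-1 / 32768) * (P ζ0 * ‖q ζ0‖) ≤ P ζ1 * ‖q ζ1‖)
    (lower : ∀ δ : ℝ, 0 < δ → δ < r2 → c * δ ^ 12 ≤ P (δ : ℂ)) : False := by
  obtain ⟨B1, hB1⟩ := outer ((r2 / 2) ^ 6) (by positivity)
  set B0 : ℝ := max (64 * K) (max B1 0 / ((r2 / 2) ^ 6 * (r2 / 2) ^ 12)) with hB0
  have hB0pos : 0 < B0 := lt_of_lt_of_le (by positivity) (le_max_left _ _)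
  -- main claim
  have main : ∀ δ : ℝ, 0 < δ → δ < r2 → ∀ ζ : ℂ, ‖ζ‖ < r2 → (‖ζ‖ + δ) ^ 6 < ζ.re →
      P ζ / (ζ.re * ‖ζ + δ‖ ^ 12) ≤ B0 := by
    intro δ hδ hδ2
    set E : ℂ → ℝ := fun ζ => P ζ / (ζ.re * ‖ζ + δ‖ ^ 12) with hE
    set R : Set ℂ := {ζ | ‖ζ‖ < r2 ∧ (‖ζ‖ + δ) ^ 6 < ζ.re} with hR
    have hre : ∀ ζ ∈ R, 0 < ζ.re := fun ζ hζ => lt_of_le_of_lt (by positivity) hζ.2
    have hadd : ∀ ζ : ℂ, 0 < ζ.re → δ ≤ ‖ζ + δ‖ := by
      intro ζ hζ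
      have h1 : (ζ + δ).re ≤ ‖ζ + δ‖ := Complex.re_le_norm _
      simp at h1
      linarith
    have hadd2 : ∀ ζ : ℂ, 0 < ζ.re → ‖ζ‖ ≤ ‖ζ + δ‖ := by
      intro ζ hζ
      apply le_of_sq_le_sq _ (norm_nonneg _)
      rw [← Complex.normSq_eq_norm_sq, ← Complex.normSq_eq_norm_sq, Complex.normSq_apply,
        Complex.normSq_apply]
      simp
      nlinarith
    have hadd3 : ∀ ζ : ℂ, 0 < ζ.re → (‖ζ‖ + δ) ^ 2 ≤ 2 * ‖ζ + δ‖ ^ 2 := by
      intro ζ hζ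
      have h1 : ‖ζ + δ‖ ^ 2 = ‖ζ‖ ^ 2 + 2 * ζ.re * δ + δ ^ 2 := by
        rw [← Complex.normSq_eq_norm_sq, ← Complex.normSq_eq_norm_sq, Complex.normSq_apply,
          Complex.normSq_apply]
        simp
        ring
      rw [h1]
      have : 0 ≤ ζ.re * δ := by positivity
      nlinarith [sq_nonneg (‖ζ‖ - δ)]
    obtain ⟨Bδ, hBδ⟩ := outer (δ ^ 6) (by positivity)
    have hbdd : BddAbove (E '' R) := by
      refine ⟨max Bδ 0 / (δ ^ 6 * δ ^ 12), ?_⟩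
      rintro _ ⟨ζ, hζ, rfl⟩
      have h0 := hre ζ hζ
      have h1 : δ ^ 6 ≤ ζ.re := by
        refine le_trans ?_ hζ.2.le
        gcongr
        linarith [norm_nonneg ζ]
      have h2 : ‖ζ‖ ^ 6 < ζ.re := by
        refine lt_of_le_of_lt ?_ hζ.2
        gcongr
        linarith
      have h3 : P ζ ≤ max Bδ 0 := (hBδ ζ hζ.1 h1 h2).trans (le_max_left _ _)
      have h4 := hadd ζ h0
      change P ζ / (ζ.re * ‖ζ + δ‖ ^ 12) ≤ _
      gcongr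
    intro ζs hζs1 hζs2
    by_contra hcon
    push Not at hcon
    have hζsR : ζs ∈ R := ⟨hζs1, hζs2⟩
    set S := sSup (E '' R) with hS
    have hSB : B0 < S := lt_of_lt_of_le hcon (le_csSup hbdd ⟨ζs, hζsR, rfl⟩)
    have hS0 : 0 < S := hB0pos.trans hSB
    set Λ : ℝ := Real.exp (1 / 32768) with hΛ
    have hΛ1 : 1 < Λ := Real.one_lt_exp_iff.2 (by norm_num)
    have hSΛ : S / Λ < S := div_lt_self hS0 hΛ1
    obtain ⟨_, ⟨ζ0, hζ0R, rfl⟩, hζ0⟩ := exists_lt_of_lt_csSup (s := E '' R) ⟨_, ⟨ζs, hζsR, rfl⟩⟩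
      (max_lt hSB hSΛ)
    have hζ0B : B0 < E ζ0 := (le_max_left _ _).trans_lt hζ0
    have hζ0S : S / Λ < E ζ0 := (le_max_right _ _).trans_lt hζ0
    have hx0 := hre ζ0 hζ0R
    -- not near the boundary
    have hT : 0 < ‖ζ0‖ + δ := by positivity
    have hnear : 2 * (‖ζ0‖ + δ) ^ 6 < ζ0.re := by
      by_contra hc1
      push Not at hc1
      have h1 := near ζ0 δ hδ hζ0R.1 hζ0R.2.le hc1
      have h2 : E ζ0 ≤ 64 * K := by
        change P ζ0 / (ζ0.re * ‖ζ0 + δ‖ ^ 12) ≤ _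
        have h3 := hadd3 ζ0 hx0
        have hpos : 0 < ‖ζ0 + δ‖ := hδ.trans_le (hadd ζ0 hx0)
        rw [div_le_iff₀ (by positivity)]
        have h4 : (‖ζ0‖ + δ) ^ 12 ≤ 64 * ‖ζ0 + δ‖ ^ 12 := by
          calc (‖ζ0‖ + δ) ^ 12 = ((‖ζ0‖ + δ) ^ 2) ^ 6 := by ring
            _ ≤ (2 * ‖ζ0 + δ‖ ^ 2) ^ 6 := by gcongr
            _ = 64 * ‖ζ0 + δ‖ ^ 12 := by ring
        calc P ζ0 ≤ K * (‖ζ0‖ + δ) ^ 18 := h1
          _ = K * ((‖ζ0‖ + δ) ^ 6 * (‖ζ0‖ + δ) ^ 12) := by ring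
          _ ≤ K * (ζ0.re * (64 * ‖ζ0 + δ‖ ^ 12)) := by
              gcongr
              exact hζ0R.2.le
          _ = 64 * K * (ζ0.re * ‖ζ0 + δ‖ ^ 12) := by ring
      exact absurd (hζ0B.trans_le h2) (not_lt.2 (le_max_left _ _))
    have hout : ‖ζ0‖ < r2 / 2 := by
      by_contra hc1
      push Not at hc1
      have h2 : ‖ζ0‖ ^ 6 < ζ0.re := by
        refine lt_of_le_of_lt ?_ hζ0R.2
        gcongr
        linarith
      have h3 : (r2 / 2) ^ 6 ≤ ζ0.re := by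
        refine le_trans ?_ h2.le
        gcongr
      have h1 : P ζ0 ≤ max B1 0 := (hB1 ζ0 hζ0R.1 h3 h2).trans (le_max_left _ _)
      have h4 : r2 / 2 ≤ ‖ζ0 + δ‖ := hc1.trans (hadd2 ζ0 hx0)
      have h5 : E ζ0 ≤ max B1 0 / ((r2 / 2) ^ 6 * (r2 / 2) ^ 12) := by
        change P ζ0 / (ζ0.re * ‖ζ0 + δ‖ ^ 12) ≤ _
        gcongr
      exact absurd (hζ0B.trans_le h5) (not_lt.2 (le_max_right _ _))
    -- the step
    set x0 := ζ0.re with hx0def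
    have hx0c : (x0 : ℂ) ≠ 0 := by exact_mod_cast hx0.ne'
    have hx0n : x0 ≤ ‖ζ0‖ := Complex.re_le_norm _
    set u : ℂ → ℂ := fun ζ => (ζ - ζ0) / x0 with hu
    set q : ℂ → ℂ := fun ζ => Complex.exp (-u ζ + u ζ ^ 2 / 16) / (ζ + δ) ^ 12 with hq
    have hre1 : ∀ ζ ∈ ball ζ0 (x0 / 16), 0 < ζ.re := by
      intro ζ hζ
      rw [mem_ball, dist_eq_norm] at hζ
      have h1 : |(ζ - ζ0).re| ≤ ‖ζ - ζ0‖ := Complex.abs_re_le_norm _
      rw [Complex.sub_re] at h1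
      have := (abs_le.1 h1).1
      linarith
    have hqd : DifferentiableOn ℂ q (ball ζ0 (x0 / 16)) := by
      intro ζ hζ
      have hne : (ζ + (δ : ℂ)) ^ 12 ≠ 0 := by
        apply pow_ne_zero
        have := hadd ζ (hre1 ζ hζ)
        exact norm_pos_iff.1 (hδ.trans_le this)
      apply DifferentiableAt.differentiableWithinAt
      refine DifferentiableAt.fun_div ?_ ?_ hne
      · fun_prop
      · fun_prop
    have h2n : 2 * ‖ζ0‖ ^ 6 < x0 := by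
      refine lt_of_le_of_lt ?_ hnear
      gcongr
      linarith
    obtain ⟨ζ1, hζ1, hst⟩ := step ζ0 hout h2n q hqd
    rw [mem_sphere, dist_eq_norm] at hζ1
    have hu1 : ‖u ζ1‖ = 1 / 32 := by
      rw [hu]
      simp only [norm_div, hζ1, Complex.norm_real, Real.norm_of_nonneg hx0.le]
      rw [← hx0def]
      field_simp
    have hu0 : u ζ0 = 0 := by simp [hu]
    set t := (u ζ1).re with ht
    have htabs : |t| ≤ 1 / 32 := (Complex.abs_re_le_norm _).trans hu1.le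
    have hx1 : ζ1.re = x0 * (1 + t) := by
      rw [ht, hu]
      simp only [Complex.div_ofReal_re, Complex.sub_re]
      field_simp
      ring
    have hx1pos : 0 < ζ1.re := by
      rw [hx1]
      have := (abs_le.1 htabs).1
      apply mul_pos hx0
      linarith
    have hζ1n : ‖ζ1‖ ≤ ‖ζ0‖ + x0 / 32 := by
      have : ζ1 = ζ0 + (ζ1 - ζ0) := by ring
      rw [this]
      exact (norm_add_le _ _).trans (by rw [hζ1])
    have hζ1R : ζ1 ∈ R := by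
      refine ⟨by linarith, ?_⟩
      rw [hx1]
      have h1 : ‖ζ1‖ + δ ≤ (33 / 32) * (‖ζ0‖ + δ) := by linarith
      calc (‖ζ1‖ + δ) ^ 6 ≤ ((33 / 32) * (‖ζ0‖ + δ)) ^ 6 := by gcongr
        _ = (33 / 32) ^ 6 * (‖ζ0‖ + δ) ^ 6 := by ring
        _ ≤ (33 / 32) ^ 6 * (x0 / 2) := by gcongr; linarith
        _ < x0 * (1 + t) := by
            have := (abs_le.1 htabs).1
            nlinarith
    have hE1 : Λ * E ζ0 ≤ E ζ1 := by
      have hpos1 : 0 < ‖ζ1 + δ‖ := hδ.trans_le (hadd ζ1 hx1pos)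
      have hpos0 : 0 < ‖ζ0 + δ‖ := hδ.trans_le (hadd ζ0 hx0)
      have hq1 : ‖q ζ1‖ = Real.exp (-t + ((u ζ1) ^ 2).re / 16) / ‖ζ1 + δ‖ ^ 12 := by
        simp only [hq, norm_div, norm_pow, Complex.norm_exp]
        congr 2
        simp only [Complex.add_re, Complex.neg_re, ht]
        have : (u ζ1 ^ 2 / 16 : ℂ).re = (u ζ1 ^ 2).re / 16 := by
          rw [show (16 : ℂ) = ((16 : ℝ) : ℂ) by norm_num, Complex.div_ofReal_re]
        rw [this]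
      have hq0 : ‖q ζ0‖ = 1 / ‖ζ0 + δ‖ ^ 12 := by
        simp [hq, hu0]
      have hsq : t ^ 2 / 8 = 1 / 16384 + ((u ζ1) ^ 2).re / 16 := by
        have h1 : ‖u ζ1‖ ^ 2 = t ^ 2 + (u ζ1).im ^ 2 := by
          rw [← Complex.normSq_eq_norm_sq, Complex.normSq_apply]; ring
        have h2 : ((u ζ1) ^ 2).re = t ^ 2 - (u ζ1).im ^ 2 := by
          rw [pow_two, Complex.mul_re]; ring
        rw [hu1] at h1
        rw [h2]
        linarith
      have hexp : 1 + t ≤ Real.exp (t - t ^ 2 / 8) := one_add_le_exp (htabs.trans (by norm_num))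
      have hexp2 : Real.exp (1 / 16384) * Real.exp (-t + ((u ζ1) ^ 2).re / 16) * (1 + t) ≤ 1 := by
        rw [← Real.exp_add]
        have e1 : (1 / 16384 : ℝ) + (-t + ((u ζ1) ^ 2).re / 16) = -(t - t ^ 2 / 8) := by
          rw [hsq]; ring
        rw [e1, Real.exp_neg]
        have := Real.exp_pos (t - t ^ 2 / 8)
        rw [inv_mul_le_iff₀ this]
        linarith
      have h1t : 0 < 1 + t := by
        have := (abs_le.1 htabs).1
        linarith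
      have hEz0 : E ζ0 = P ζ0 * ‖q ζ0‖ / x0 := by
        rw [hq0]
        change P ζ0 / (x0 * ‖ζ0 + δ‖ ^ 12) = _
        field_simp
      have hEz1 : Real.exp (1 / 16384) * (P ζ1 * ‖q ζ1‖ / x0) ≤ E ζ1 := by
        rw [hq1]
        change _ ≤ P ζ1 / (ζ1.re * ‖ζ1 + δ‖ ^ 12)
        rw [hx1]
        rw [le_div_iff₀ (by positivity)]
        have e2 : Real.exp (1 / 16384) * (P ζ1 * (Real.exp (-t + ((u ζ1) ^ 2).re / 16) /
            ‖ζ1 + δ‖ ^ 12) / x0) * (x0 * (1 + t) * ‖ζ1 + δ‖ ^ 12)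
            = P ζ1 * (Real.exp (1 / 16384) * Real.exp (-t + ((u ζ1) ^ 2).re / 16) * (1 + t)) := by
          field_simp
        rw [e2]
        have := mul_le_mul_of_nonneg_left hexp2 (hP ζ1)
        linarith
      have hΛe : Λ = Real.exp (1 / 16384) * Real.exp (-1 / 32768) := by
        rw [hΛ, ← Real.exp_add]; norm_num
      calc Λ * E ζ0 = Real.exp (1 / 16384) *
            (Real.exp (-1 / 32768) * (P ζ0 * ‖q ζ0‖) / x0) := by rw [hΛe, hEz0]; ring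
        _ ≤ Real.exp (1 / 16384) * (P ζ1 * ‖q ζ1‖ / x0) := by gcongr
        _ ≤ E ζ1 := hEz1
    have h1 : S < Λ * E ζ0 := by
      rw [div_lt_iff₀ (by linarith)] at hζ0S
      linarith
    have h2 : E ζ1 ≤ S := le_csSup hbdd ⟨ζ1, hζ1R, rfl⟩
    linarith
  -- conclusion
  set δ : ℝ := min (r2 / 2) (c / (8192 * B0)) with hδ
  have hδ0 : 0 < δ := lt_min (by positivity) (by positivity)
  have hδ1 : δ < r2 := (min_le_left _ _).trans_lt (by linarith)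
  have hδ4 : δ ≤ 1 / 4 := by linarith
  have hδn : ‖(δ : ℂ)‖ = δ := by rw [Complex.norm_real, Real.norm_of_nonneg hδ0.le]
  have h1 := main δ hδ0 hδ1 (δ : ℂ) (by rw [hδn]; exact hδ1) (by
    rw [hδn, Complex.ofReal_re]
    have : (δ + δ) ^ 6 = 64 * δ ^ 5 * δ := by ring
    rw [this]
    have h5 : δ ^ 5 ≤ (1 / 4) ^ 5 := by gcongr
    nlinarith)
  have h2 := lower δ hδ0 hδ1
  have h3 : ‖(δ : ℂ) + δ‖ = 2 * δ := by
    rw [show (δ : ℂ) + δ = ((2 * δ : ℝ) : ℂ) by push_cast; ring, Complex.norm_real,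
      Real.norm_of_nonneg (by positivity)]
  rw [h3, Complex.ofReal_re, div_le_iff₀ (by positivity)] at h1
  have h4 : δ ≤ c / (8192 * B0) := min_le_right _ _
  rw [le_div_iff₀ (by positivity)] at h4
  have h5 : c * δ ^ 12 ≤ B0 * (δ * (2 * δ) ^ 12) := h2.trans h1
  have h6 : B0 * (δ * (2 * δ) ^ 12) = (4096 * B0 * δ) * δ ^ 12 := by ring
  rw [h6] at h5
  have h7 : c ≤ 4096 * B0 * δ := le_of_mul_le_mul_right h5 (by positivity)
  nlinarith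

end Pool.Agent.W737.SQ
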