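import Pool.Agent.W737.SQ.Metric

/-!
# The squeezing step (project SQ)
-/

set_option autoImplicit false

open Metric Set

namespace Pool.Agent.W737.SQ

variable {n : ℕ} {Ω : Set (V n)} {f F : V n → V n} {s : ℝ}

theorem exists_dual_vec (Y : V n) : ∃ v : V n, ‖v‖ ≤ 1 ∧ ‖(inner ℂ v Y : ℂ)‖ = ‖Y‖ := by
  by_cases hY : Y = 0
  · exact ⟨0, by simp, by simp [hY]⟩
  have hn : 0 < ‖Y‖ := norm_pos_iff.2 hY
  refine ⟨((‖Y‖ : ℂ)⁻¹) • Y, ?_, ?_⟩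
  · rw [norm_smul, norm_inv, Complex.norm_real, norm_norm, inv_mul_cancel₀ hn.ne']
  · rw [inner_smul_left, norm_mul, RCLike.norm_conj, norm_inv, Complex.norm_real, norm_norm,
      inner_self_eq_norm_sq_to_K]
    rw [norm_pow]
    have : ‖((‖Y‖ : ℝ) : ℂ)‖ = ‖Y‖ := by rw [Complex.norm_real, norm_norm]
    change ‖Y‖⁻¹ * ‖((‖Y‖ : ℝ) : ℂ)‖ ^ 2 = ‖Y‖
    rw [this]
    field_simp

theorem exists_attain (η : V n →L[ℂ] ℂ) : ∃ v : V n, (‖v‖ = 1 ∨ v = 0) ∧ ‖η v‖ = ‖η‖ := by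
  by_cases hη : η = 0
  · exact ⟨0, Or.inr rfl, by simp [hη]⟩
  set u : V n := (InnerProductSpace.toDual ℂ (V n)).symm η with hu
  have h1 : ∀ x, η x = inner ℂ u x := fun x => by
    rw [hu, InnerProductSpace.toDual_symm_apply]
  have h2 : ‖u‖ = ‖η‖ := by rw [hu, LinearIsometryEquiv.norm_map]
  have hn : 0 < ‖u‖ := by rw [h2]; exact norm_pos_iff.2 hη
  refine ⟨((‖u‖ : ℂ)⁻¹) • u, Or.inl ?_, ?_⟩
  · rw [norm_smul, norm_inv, Complex.norm_real, norm_norm, inv_mul_cancel₀ hn.ne']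
  · rw [h1, inner_smul_right, norm_mul, norm_inv, Complex.norm_real, norm_norm,
      inner_self_eq_norm_sq_to_K, norm_pow]
    have : ‖((‖u‖ : ℝ) : ℂ)‖ = ‖u‖ := by rw [Complex.norm_real, norm_norm]
    change ‖u‖⁻¹ * ‖((‖u‖ : ℝ) : ℂ)‖ ^ 2 = ‖η‖
    rw [this, ← h2]
    field_simp

theorem Sq.near_nm' (H : Sq Ω f F s) (hs : 0 < s) {D : ℝ} (hb : ∀ x ∈ Ω, ‖x‖ < D)
    {x : V n} (hx : x ∈ Ω) (hfx : ‖f x‖ < s) (ξ : V n →L[ℂ] ℂ) {v : V n}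
    (hv : ‖v‖ = 1 ∨ v = 0) :
    (s ^ 2 - ‖f x‖ ^ 2) / s * ‖ξ (fderiv ℂ F (f x) v)‖ ≤ Nm Ω x ξ := by
  rcases hv with hv | hv
  · exact H.near_nm hb hx hfx ξ hv
  · simp [hv, nm_nonneg]

theorem ratio_ineq {s κ u : ℝ} (hs1 : s ≤ 1) (hs0 : 0 < s) (hκ : κ < s) (hκ0 : 0 ≤ κ)
    (hu0 : 0 ≤ u) (hu : u ≤ κ ^ 2) :
    (s ^ 2 - κ ^ 2) / (1 - κ ^ 2) * ((1 - u) * s) ≤ s ^ 2 - u := by
  have h1 : 0 < 1 - κ ^ 2 := by nlinarith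
  have h2 : κ ^ 2 < s ^ 2 := by nlinarith
  have h3 : s ^ 2 ≤ 1 := by nlinarith
  rw [div_mul_eq_mul_div, div_le_iff₀ h1]
  have h4 : (1 - u) * s ≤ (1 - u) := by nlinarith
  have h5 : (s ^ 2 - κ ^ 2) * ((1 - u) * s) ≤ (s ^ 2 - κ ^ 2) * (1 - u) := by
    apply mul_le_mul_of_nonneg_left h4; linarith
  nlinarith [mul_nonneg (sub_nonneg.2 h3) (sub_nonneg.2 hu)]

/-- The squeezing step. -/
theorem Sq.step (H : Sq Ω f F s) (hΩ : IsOpen Ω) {D : ℝ} (hb : ∀ x ∈ Ω, ‖x‖ < D)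
    (hs0 : 0 < s) (hs1 : s ≤ 1) {κ : ℝ} (hκ0 : 0 ≤ κ) (hκs : κ < s) {U : Set ℂ} (hU : IsOpen U)
    {c : ℂ} {r : ℝ} (hr : 0 < r) (hcU : closedBall c r ⊆ U) {γ X : ℂ → V n}
    {ξ : ℂ → (V n →L[ℂ] ℂ)} {q : ℂ → ℂ} (hγ : DifferentiableOn ℂ γ U)
    (hX : DifferentiableOn ℂ X U) (hξ : DifferentiableOn ℂ ξ U) (hq : DifferentiableOn ℂ q U)
    (hγΩ : MapsTo γ U Ω) (h0 : f (γ c) = 0) (hfκ : ∀ ζ ∈ closedBall c r, ‖f (γ ζ)‖ ≤ κ) (m : ℕ) :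
    ∃ ζ ∈ sphere c r, (s ^ 2 * ((s ^ 2 - κ ^ 2) / (1 - κ ^ 2))) ^ m *
      ((Car Ω (γ c) (X c) ^ 2 * Nm Ω (γ c) (ξ c)) ^ m * ‖q c‖) ≤
      (Car Ω (γ ζ) (X ζ) ^ 2 * Nm Ω (γ ζ) (ξ ζ)) ^ m * ‖q ζ‖ := by
  have hcc : c ∈ closedBall c r := mem_closedBall_self hr.le
  obtain ⟨v1, hv1, hv1e⟩ := exists_dual_vec (fderiv ℂ f (γ c) (X c))
  obtain ⟨v0, hv0, hv0e⟩ := exists_attain ((ξ c).comp (fderiv ℂ F 0))
  set U' : Set ℂ := U ∩ (fun ζ => ‖f (γ ζ)‖) ⁻¹' Iio s with hU'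
  have hfγ : DifferentiableOn ℂ (fun ζ => f (γ ζ)) U := H.hf.comp hγ hγΩ
  have hU'o : IsOpen U' := hfγ.continuousOn.norm.isOpen_inter_preimage hU isOpen_Iio
  have hcU' : closedBall c r ⊆ U' := fun ζ hζ => ⟨hcU hζ, (hfκ ζ hζ).trans_lt hκs⟩
  have hsub : U' ⊆ U := inter_subset_left
  have hf2 : ContDiffOn ℂ 2 f Ω := Helper540.contDiffOn_of_differentiableOn hΩ H.hf 2
  have hF2 : ContDiffOn ℂ 2 F (ball 0 s) :=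
    Helper540.contDiffOn_of_differentiableOn isOpen_ball H.hF 2
  have hdf : DifferentiableOn ℂ (fderiv ℂ f) Ω :=
    (hf2.fderiv_of_isOpen hΩ (m := 1) (by norm_num)).differentiableOn (by norm_num)
  have hdF : DifferentiableOn ℂ (fderiv ℂ F) (ball 0 s) :=
    (hF2.fderiv_of_isOpen isOpen_ball (m := 1) (by norm_num)).differentiableOn (by norm_num)
  set A : ℂ → ℂ := fun ζ => inner ℂ v1 (fderiv ℂ f (γ ζ) (X ζ)) with hA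
  set B : ℂ → ℂ := fun ζ => ξ ζ (fderiv ℂ F (f (γ ζ)) v0) with hB
  have hAd : DifferentiableOn ℂ A U' := by
    have h1 : DifferentiableOn ℂ (fun ζ => fderiv ℂ f (γ ζ) (X ζ)) U' :=
      DifferentiableOn.clm_apply ((hdf.comp hγ hγΩ).mono hsub) (hX.mono hsub)
    exact (innerSL ℂ v1).differentiable.comp_differentiableOn h1
  have hmF : MapsTo (fun ζ => f (γ ζ)) U' (ball 0 s) := by
    intro ζ hζ
    rw [mem_ball_zero_iff]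
    exact hζ.2
  have hBd : DifferentiableOn ℂ B U' := by
    have h1 : DifferentiableOn ℂ (fun ζ => fderiv ℂ F (f (γ ζ)) v0) U' :=
      DifferentiableOn.clm_apply (hdF.comp (hfγ.mono hsub) hmF) (differentiableOn_const _)
    exact DifferentiableOn.clm_apply (hξ.mono hsub) h1
  set Q : ℂ → ℂ := fun ζ => (A ζ ^ 2 * B ζ) ^ m * q ζ with hQ
  have hQd : DifferentiableOn ℂ Q U' := (((hAd.pow 2).mul hBd).pow m).mul (hq.mono hsub)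
  have hsph : (sphere c r).Nonempty := NormedSpace.sphere_nonempty.2 hr.le
  obtain ⟨ζ1, hζ1, hmax⟩ := (isCompact_sphere c r).exists_isMaxOn hsph
    ((hQd.mono (sphere_subset_closedBall.trans hcU')).continuousOn.norm)
  have hmm : ‖Q c‖ ≤ ‖Q ζ1‖ := by
    apply Complex.norm_le_of_forall_mem_frontier_norm_le (U := ball c r) isBounded_ball
    · apply DifferentiableOn.diffContOnCl
      rw [closure_ball _ hr.ne']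
      exact hQd.mono hcU'
    · intro z hz
      rw [frontier_ball _ hr.ne'] at hz
      exact hmax hz
    · exact subset_closure (mem_ball_self hr)
  refine ⟨ζ1, hζ1, ?_⟩
  have hcΩ : γ c ∈ Ω := hγΩ (hcU hcc)
  have hζ1c : ζ1 ∈ closedBall c r := sphere_subset_closedBall hζ1
  have h1Ω : γ ζ1 ∈ Ω := hγΩ (hcU hζ1c)
  set C0 := Car Ω (γ c) (X c) with hC0
  set M0 := Nm Ω (γ c) (ξ c) with hM0
  set C1 := Car Ω (γ ζ1) (X ζ1) with hC1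
  set M1 := Nm Ω (γ ζ1) (ξ ζ1) with hM1
  have hC0n : 0 ≤ C0 := car_nonneg _ _ _
  have hM0n : 0 ≤ M0 := nm_nonneg _ _ _
  have hC1n : 0 ≤ C1 := car_nonneg _ _ _
  have hM1n : 0 ≤ M1 := nm_nonneg _ _ _
  -- center
  have hAc : s * C0 ≤ ‖A c‖ := by
    have := H.center_car hΩ hs0 hcΩ h0 (X c)
    rw [← hv1e] at this
    exact this
  have hBc : M0 ≤ ‖B c‖ := by
    have := H.center_nm hΩ hs0 hcΩ h0 (ξ c)
    rw [← hv0e] at this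
    simpa [hB, h0] using this
  have hcen : (s ^ 2 * (C0 ^ 2 * M0)) ^ m * ‖q c‖ ≤ ‖Q c‖ := by
    have h1 : s ^ 2 * (C0 ^ 2 * M0) ≤ ‖A c‖ ^ 2 * ‖B c‖ := by
      have : (s * C0) ^ 2 * M0 ≤ ‖A c‖ ^ 2 * ‖B c‖ := by gcongr
      linarith [this, mul_pow s C0 2]
    have h2 : ‖Q c‖ = (‖A c‖ ^ 2 * ‖B c‖) ^ m * ‖q c‖ := by
      simp only [hQ, norm_mul, norm_pow]
    rw [h2]
    gcongr
  -- circle point
  have hκ1 : κ < 1 := hκs.trans_le hs1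
  have hden : 0 < 1 - κ ^ 2 := by nlinarith
  have hnum : 0 < s ^ 2 - κ ^ 2 := by nlinarith
  have hfr : 0 < (s ^ 2 - κ ^ 2) / (1 - κ ^ 2) := div_pos hnum hden
  have hw : ‖f (γ ζ1)‖ ≤ κ := hfκ ζ1 hζ1c
  have hws : ‖f (γ ζ1)‖ < s := hw.trans_lt hκs
  set u := ‖f (γ ζ1)‖ ^ 2 with hu
  have hu0 : 0 ≤ u := by positivity
  have huκ : u ≤ κ ^ 2 := by
    rw [hu]; gcongr
  have hAz : ‖A ζ1‖ ^ 2 ≤ (1 - u) * C1 ^ 2 := by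
    have h1 : ‖A ζ1‖ ≤ ‖fderiv ℂ f (γ ζ1) (X ζ1)‖ := by
      have := norm_inner_le_norm (𝕜 := ℂ) v1 (fderiv ℂ f (γ ζ1) (X ζ1))
      refine this.trans ?_
      nlinarith [norm_nonneg (fderiv ℂ f (γ ζ1) (X ζ1))]
    calc ‖A ζ1‖ ^ 2 ≤ ‖fderiv ℂ f (γ ζ1) (X ζ1)‖ ^ 2 := by gcongr
      _ ≤ _ := H.near_car hΩ h1Ω (X ζ1)
  have hBz : (s ^ 2 - u) * ‖B ζ1‖ ≤ s * M1 := by
    have := H.near_nm' hs0 hb h1Ω hws (ξ ζ1) hv0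
    rw [div_mul_eq_mul_div, div_le_iff₀ hs0] at this
    change (s ^ 2 - u) * ‖B ζ1‖ ≤ M1 * s at this
    linarith
  have hcirc : (s ^ 2 - κ ^ 2) / (1 - κ ^ 2) * (‖A ζ1‖ ^ 2 * ‖B ζ1‖) ≤ C1 ^ 2 * M1 := by
    have hr1 := ratio_ineq hs1 hs0 hκs hκ0 hu0 huκ
    have hu1 : 0 ≤ 1 - u := by nlinarith
    have h2 : ‖A ζ1‖ ^ 2 * ‖B ζ1‖ ≤ (1 - u) * C1 ^ 2 * ‖B ζ1‖ := by gcongr
    have h3 : (s ^ 2 - κ ^ 2) / (1 - κ ^ 2) * (‖A ζ1‖ ^ 2 * ‖B ζ1‖) ≤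
        (s ^ 2 - κ ^ 2) / (1 - κ ^ 2) * ((1 - u) * C1 ^ 2 * ‖B ζ1‖) := by gcongr
    have h4 : (s ^ 2 - κ ^ 2) / (1 - κ ^ 2) * ((1 - u) * s) * (C1 ^ 2 * ‖B ζ1‖) ≤
        (s ^ 2 - u) * (C1 ^ 2 * ‖B ζ1‖) := by gcongr
    have h5 : (s ^ 2 - u) * (C1 ^ 2 * ‖B ζ1‖) ≤ s * (C1 ^ 2 * M1) := by
      have := mul_le_mul_of_nonneg_left hBz (sq_nonneg C1)
      nlinarith
    have h6 : s * ((s ^ 2 - κ ^ 2) / (1 - κ ^ 2) * ((1 - u) * C1 ^ 2 * ‖B ζ1‖)) ≤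
        s * (C1 ^ 2 * M1) := by
      refine le_trans (le_of_eq ?_) (h4.trans h5)
      ring
    exact h3.trans (le_of_mul_le_mul_left h6 hs0)
  calc (s ^ 2 * ((s ^ 2 - κ ^ 2) / (1 - κ ^ 2))) ^ m * ((C0 ^ 2 * M0) ^ m * ‖q c‖)
      = ((s ^ 2 - κ ^ 2) / (1 - κ ^ 2)) ^ m * ((s ^ 2 * (C0 ^ 2 * M0)) ^ m * ‖q c‖) := by
        rw [mul_pow, mul_pow (s ^ 2) (C0 ^ 2 * M0)]; ring
    _ ≤ ((s ^ 2 - κ ^ 2) / (1 - κ ^ 2)) ^ m * ‖Q ζ1‖ := by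
        gcongr
        exact hcen.trans hmm
    _ = ((s ^ 2 - κ ^ 2) / (1 - κ ^ 2) * (‖A ζ1‖ ^ 2 * ‖B ζ1‖)) ^ m * ‖q ζ1‖ := by
        simp only [hQ, norm_mul, norm_pow]
        rw [mul_pow ((s ^ 2 - κ ^ 2) / (1 - κ ^ 2))]; ring
    _ ≤ (C1 ^ 2 * M1) ^ m * ‖q ζ1‖ := by gcongr

end Pool.Agent.W737.SQ
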