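import Pool.Agent.W737.SQ.Slice
import Pool.Agent.W737.SQ.Step
import Pool.Agent.W737.SQ.Final
import Pool.Agent.Helper540.Osgood

/-!
# Assembly (project SQ)
-/

set_option autoImplicit false

open Metric Set Filter Topology

namespace Pool.Agent.W737.SQ

variable {n : ℕ}

/-- squeezing maps with their inverses -/
theorem exists_sq {Ω : Set (V n)} (hΩ : IsOpen Ω) {f : V n → V n}
    (hf : DifferentiableOn ℂ f Ω) (hinj : InjOn f Ω) (hfm : f '' Ω ⊆ ball 0 1) {s : ℝ}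
    (hsub : ball 0 s ⊆ f '' Ω) : ∃ F : V n → V n, Sq Ω f F s := by
  have hgmem : ∀ y ∈ f '' Ω, Function.invFunOn f Ω y ∈ Ω ∧ f (Function.invFunOn f Ω y) = y :=
    fun y hy => ⟨Function.invFunOn_mem hy, Function.invFunOn_eq hy⟩
  refine ⟨Function.invFunOn f Ω, hf, fun x hx => hfm (mem_image_of_mem f hx), ?_,
    fun y hy => (hgmem y (hsub hy)).1, ?_, fun y hy => (hgmem y (hsub hy)).2⟩
  · exact Pool.Agent.Helper540.differentiableOn_of_comp rfl hΩ Metric.isOpen_ball hf hinj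
      (g := id) differentiableOn_id (fun y hy => (hgmem y (hsub hy)).1)
      (fun y hy => (hgmem y (hsub hy)).2)
  · intro x hx _
    obtain ⟨p, q⟩ := hgmem _ (mem_image_of_mem f hx)
    exact hinj p hx q

/-- the constant for the squeezing factor -/
theorem exists_eps : ∃ ε : ℝ, 0 < ε ∧ ε < 1 / 2 ∧
    Real.exp (-1 / 32768) ≤
      ((1 - ε) ^ 2 * (((1 - ε) ^ 2 - (1 / 2 : ℝ) ^ 2) / (1 - (1 / 2 : ℝ) ^ 2))) ^ 12 := by
  have h1 : ContinuousAt (fun ε : ℝ => ((1 - ε) ^ 2 * (((1 - ε) ^ 2 - (1 / 2 : ℝ) ^ 2) /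
      (1 - (1 / 2 : ℝ) ^ 2))) ^ 12) 0 := by fun_prop
  have h2 : Real.exp (-1 / 32768) < ((1 - (0 : ℝ)) ^ 2 * (((1 - (0 : ℝ)) ^ 2 - (1 / 2 : ℝ) ^ 2) /
      (1 - (1 / 2 : ℝ) ^ 2))) ^ 12 := by
    have h5 := Real.exp_lt_exp.2 (show (-1 / 32768 : ℝ) < 0 by norm_num)
    rw [Real.exp_zero] at h5
    have h6 : ((1 - (0 : ℝ)) ^ 2 * (((1 - (0 : ℝ)) ^ 2 - (1 / 2 : ℝ) ^ 2) /
      (1 - (1 / 2 : ℝ) ^ 2))) ^ 12 = 1 := by norm_num
    rw [h6]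
    exact h5
  have h3 := (h1.eventually_const_lt h2)
  obtain ⟨r, hr, h4⟩ := Metric.eventually_nhds_iff_ball.1 h3
  refine ⟨min (r / 2) (1 / 4), by positivity, (min_le_right _ _).trans_lt (by norm_num), ?_⟩
  refine (h4 _ ?_).le
  rw [mem_ball, dist_eq_norm, sub_zero, Real.norm_of_nonneg (by positivity)]
  exact (min_le_left _ _).trans_lt (by linarith)

/-- The squeezing hypothesis. -/
def SqLim (Ω : Set (V n)) : Prop :=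
  ∀ ε : ℝ, 0 < ε → ∃ δ : ℝ, 0 < δ ∧ ∀ z ∈ Ω, Metric.infDist z Ωᶜ < δ →
    ∃ f : V n → V n, DifferentiableOn ℂ f Ω ∧ Set.InjOn f Ω ∧
      f '' Ω ⊆ Metric.ball 0 1 ∧ f z = 0 ∧ Metric.ball 0 (1 - ε) ⊆ f '' Ω

theorem pow12_sum (a b c : ℝ) (ha : 0 ≤ a) (hb : 0 ≤ b) (hc : 0 ≤ c) :
    (a + b + c) ^ 12 ≤ 3 ^ 12 * (a ^ 12 + b ^ 12 + c ^ 12) := by
  have h : a + b + c ≤ 3 * max a (max b c) := by
    have h1 := le_max_left a (max b c)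
    have h2 := (le_max_left b c).trans (le_max_right a (max b c))
    have h3 := (le_max_right b c).trans (le_max_right a (max b c))
    linarith
  have h4 : (max a (max b c)) ^ 12 ≤ a ^ 12 + b ^ 12 + c ^ 12 := by
    rcases max_choice a (max b c) with h5 | h5
    · rw [h5]
      have : 0 ≤ b ^ 12 := by positivity
      have : 0 ≤ c ^ 12 := by positivity
      linarith
    · rw [h5]
      rcases max_choice b c with h6 | h6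
      · rw [h6]
        have : 0 ≤ a ^ 12 := by positivity
        have : 0 ≤ c ^ 12 := by positivity
        linarith
      · rw [h6]
        have : 0 ≤ b ^ 12 := by positivity
        have : 0 ≤ a ^ 12 := by positivity
        linarith
  calc (a + b + c) ^ 12 ≤ (3 * max a (max b c)) ^ 12 := by gcongr
    _ = 3 ^ 12 * (max a (max b c)) ^ 12 := by ring
    _ ≤ _ := by gcongr

theorem exists_root12 {a : ℝ} (ha : 0 ≤ a) : ∃ b : ℝ, 0 ≤ b ∧ b ^ 12 = a :=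
  ⟨a ^ ((1 : ℝ) / 12), by positivity, by
    rw [← Real.rpow_natCast, ← Real.rpow_mul ha]; norm_num⟩

/-- abbreviations of the basic region facts -/
structure Reg (Ω : Set (V n)) (ρ : V n → ℝ) (Γ : ℂ → V n) (c1 r : ℝ) : Prop where
  c1pos : 0 < c1
  mem : ∀ ζ : ℂ, ‖ζ‖ < r → ‖ζ‖ ^ 6 < ζ.re → Γ ζ ∈ Ω
  lo : ∀ ζ : ℂ, ‖ζ‖ < r → ‖ζ‖ ^ 6 < ζ.re → ζ.re / 2 ≤ -ρ (Γ ζ)
  hi : ∀ ζ : ℂ, ‖ζ‖ < r → ‖ζ‖ ^ 6 < ζ.re → -ρ (Γ ζ) ≤ 2 * ζ.re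
  ball : ∀ ζ : ℂ, ‖ζ‖ < r → ‖ζ‖ ^ 6 < ζ.re → Metric.ball (Γ ζ) (c1 * ζ.re) ⊆ Ω

theorem Reg.mono {Ω : Set (V n)} {ρ : V n → ℝ} {Γ : ℂ → V n} {c1 r r' : ℝ}
    (H : Reg Ω ρ Γ c1 r) (h : r' ≤ r) : Reg Ω ρ Γ c1 r' :=
  ⟨H.c1pos, fun ζ h1 => H.mem ζ (h1.trans_le h), fun ζ h1 => H.lo ζ (h1.trans_le h),
    fun ζ h1 => H.hi ζ (h1.trans_le h), fun ζ h1 => H.ball ζ (h1.trans_le h)⟩

theorem exists_reg {Ω : Set (V n)} {ρ : V n → ℝ} (H : Dom Ω ρ) {p : V n} {Γ : ℂ → V n}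
    {K r : ℝ} (hK : 0 < K) (hr : 0 < r)
    (h1 : ∀ ζ : ℂ, ‖ζ‖ < r → |ρ (Γ ζ) + ζ.re| ≤ K * (|ζ.re| * ‖ζ‖ + ‖ζ‖ ^ 7))
    (h2 : ∀ ζ : ℂ, ‖ζ‖ < r → ‖Γ ζ - p‖ ≤ K * ‖ζ‖) :
    ∃ c1 r' : ℝ, 0 < r' ∧ r' ≤ r ∧ Reg Ω ρ Γ c1 r' := by
  obtain ⟨L, s, hL, hs, hlip⟩ := exists_lip (H.smooth.of_le (by norm_cast) : ContDiff ℝ 1 ρ) p
  set r' : ℝ := min (min r 1) (min (1 / (4 * K)) (s / (2 * (K + 1 / (4 * L) + 1)))) with hr'
  have hr'0 : 0 < r' := by positivity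
  have hr'r : r' ≤ r := (min_le_left _ _).trans (min_le_left _ _)
  have hr'1 : r' ≤ 1 := (min_le_left _ _).trans (min_le_right _ _)
  have hr'K : r' ≤ 1 / (4 * K) := (min_le_right _ _).trans (min_le_left _ _)
  have hr's : r' ≤ s / (2 * (K + 1 / (4 * L) + 1)) := (min_le_right _ _).trans (min_le_right _ _)
  have key : ∀ ζ : ℂ, ‖ζ‖ < r' → ‖ζ‖ ^ 6 < ζ.re → |ρ (Γ ζ) + ζ.re| ≤ ζ.re / 2 := by
    intro ζ hζ hx
    have hx0 : 0 < ζ.re := lt_of_le_of_lt (by positivity) hx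
    refine (h1 ζ (hζ.trans_le hr'r)).trans ?_
    rw [abs_of_pos hx0]
    have h3 : ‖ζ‖ ^ 7 ≤ ζ.re * ‖ζ‖ := by
      rw [pow_succ]
      gcongr
    have h4 : ‖ζ‖ ≤ 1 / (4 * K) := hζ.le.trans hr'K
    calc K * (ζ.re * ‖ζ‖ + ‖ζ‖ ^ 7) ≤ K * (ζ.re * ‖ζ‖ + ζ.re * ‖ζ‖) := by gcongr
      _ = 2 * K * ζ.re * ‖ζ‖ := by ring
      _ ≤ 2 * K * ζ.re * (1 / (4 * K)) := by gcongr
      _ = ζ.re / 2 := by field_simp; norm_num
  refine ⟨1 / (4 * L), r', hr'0, hr'r, by positivity, ?_, ?_, ?_, ?_⟩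
  · intro ζ hζ hx
    have hx0 : 0 < ζ.re := lt_of_le_of_lt (by positivity) hx
    have := (abs_le.1 (key ζ hζ hx)).2
    rw [H.eq, Set.mem_ofPred_eq]
    linarith
  · intro ζ hζ hx
    have := (abs_le.1 (key ζ hζ hx)).2
    linarith
  · intro ζ hζ hx
    have hx0 : 0 < ζ.re := lt_of_le_of_lt (by positivity) hx
    have := (abs_le.1 (key ζ hζ hx)).1
    linarith
  · intro ζ hζ hx z hz
    have hx0 : 0 < ζ.re := lt_of_le_of_lt (by positivity) hx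
    have hxn : ζ.re ≤ ‖ζ‖ := Complex.re_le_norm _
    rw [mem_ball, dist_eq_norm] at hz
    have h3 : ‖Γ ζ - p‖ ≤ K * ‖ζ‖ := h2 ζ (hζ.trans_le hr'r)
    have hden : 0 < 2 * (K + 1 / (4 * L) + 1) := by positivity
    have h4 : ‖ζ‖ * (2 * (K + 1 / (4 * L) + 1)) < s := by
      have := hζ.trans_le hr's
      rwa [lt_div_iff₀ hden] at this
    have hL4 : 0 < 1 / (4 * L) := by positivity
    have h5 : ‖Γ ζ - p‖ < s := by
      nlinarith [norm_nonneg ζ]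
    have h6 : ‖z - p‖ < s := by
      have h7 : ‖z - p‖ ≤ ‖z - Γ ζ‖ + ‖Γ ζ - p‖ := norm_sub_le_norm_sub_add_norm_sub _ _ _
      have h8 : 1 / (4 * L) * ζ.re ≤ 1 / (4 * L) * ‖ζ‖ := by gcongr
      nlinarith [norm_nonneg ζ]
    have h7 := hlip z (Γ ζ) h6 h5
    rw [Real.norm_eq_abs] at h7
    have h8 := (abs_le.1 h7).2
    have h9 := (abs_le.1 (key ζ hζ hx)).2
    rw [H.eq, Set.mem_ofPred_eq]
    have h10 : L * ‖z - Γ ζ‖ < L * (1 / (4 * L) * ζ.re) := by gcongr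
    have h11 : L * (1 / (4 * L) * ζ.re) = ζ.re / 4 := by field_simp
    linarith

end Pool.Agent.W737.SQ
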