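import Pool.Agent.W737.SQ.Defs
import Pool.Agent.W737.SQ.Ball
import Pool.Agent.Helper540.Holo

/-!
# Caratheodory type metric, normal speed of discs, comparison with squeezing maps (project SQ)
-/

set_option autoImplicit false

open Metric Set

namespace Pool.Agent.W737.SQ

/-- Caratheodory type metric of Omega (holomorphic maps to the unit ball) -/
noncomputable def Car {n : ℕ} (Ω : Set (V n)) (z X : V n) : ℝ :=
  sSup {t : ℝ | ∃ h : V n → V n, DifferentiableOn ℂ h Ω ∧ MapsTo h Ω (ball 0 1) ∧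
    t = ‖fderiv ℂ h z X‖}

/-- maximal speed, measured by xi, of holomorphic discs through z -/
noncomputable def Nm {n : ℕ} (Ω : Set (V n)) (z : V n) (ξ : V n →L[ℂ] ℂ) : ℝ :=
  sSup {t : ℝ | ∃ φ : ℂ → V n, DifferentiableOn ℂ φ (ball 0 1) ∧ MapsTo φ (ball 0 1) Ω ∧
    φ 0 = z ∧ t = ‖ξ (deriv φ 0)‖}

theorem cauchy_ball {F : Type*} [NormedAddCommGroup F] [NormedSpace ℂ F] {g : ℂ → F} {r M : ℝ}
    (hr : 0 < r) (hg : DifferentiableOn ℂ g (ball 0 r)) (hM : ∀ t ∈ ball (0 : ℂ) r, ‖g t‖ ≤ M) :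
    ‖deriv g 0‖ ≤ M / r := by
  by_contra hcon
  push Not at hcon
  have hM0 : 0 ≤ M := (norm_nonneg _).trans (hM 0 (mem_ball_self hr))
  have hD : 0 < ‖deriv g 0‖ := lt_of_le_of_lt (by positivity) hcon
  have h1 : M / ‖deriv g 0‖ < r := by
    rw [div_lt_iff₀ hD]
    rw [div_lt_iff₀ hr] at hcon
    linarith
  obtain ⟨r', h2, h3⟩ := exists_between (max_lt h1 hr)
  have hr' : 0 < r' := (le_max_right _ _).trans_lt h2
  have h4 : M / ‖deriv g 0‖ < r' := (le_max_left _ _).trans_lt h2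
  have h5 := Complex.norm_deriv_le_of_forall_mem_sphere_norm_le (f := g) (c := 0) (C := M) hr'
    (by
      apply DifferentiableOn.diffContOnCl
      rw [closure_ball _ hr'.ne']
      exact hg.mono (closedBall_subset_ball h3))
    (fun z hz => hM z (sphere_subset_closedBall.trans (closedBall_subset_ball h3) hz))
  rw [div_lt_iff₀ hD] at h4
  rw [le_div_iff₀ hr'] at h5
  linarith

section basic

variable {n : ℕ} {Ω : Set (V n)}

theorem fderiv_comp_disc (hΩ : IsOpen Ω) {h : V n → V n} (hh : DifferentiableOn ℂ h Ω)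
    {ψ : ℂ → V n} {r : ℝ} (hr : 0 < r) (hψ : DifferentiableOn ℂ ψ (ball 0 r))
    (hψΩ : MapsTo ψ (ball 0 r) Ω) :
    deriv (fun t => h (ψ t)) 0 = fderiv ℂ h (ψ 0) (deriv ψ 0) := by
  have h0 : (0 : ℂ) ∈ ball (0 : ℂ) r := mem_ball_self hr
  have h1 : HasFDerivAt h (fderiv ℂ h (ψ 0)) (ψ 0) :=
    (hh.differentiableAt (hΩ.mem_nhds (hψΩ h0))).hasFDerivAt
  have h2 : HasDerivAt ψ (deriv ψ 0) 0 :=
    (hψ.differentiableAt (isOpen_ball.mem_nhds h0)).hasDerivAt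
  exact (h1.comp_hasDerivAt (0 : ℂ) h2).deriv

theorem norm_fderiv_disc_le (hΩ : IsOpen Ω) {h : V n → V n} (hh : DifferentiableOn ℂ h Ω)
    (hm : MapsTo h Ω (ball 0 1))
    {ψ : ℂ → V n} {r : ℝ} (hr : 0 < r) (hψ : DifferentiableOn ℂ ψ (ball 0 r))
    (hψΩ : MapsTo ψ (ball 0 r) Ω) :
    ‖fderiv ℂ h (ψ 0) (deriv ψ 0)‖ ≤ 1 / r := by
  rw [← fderiv_comp_disc hΩ hh hr hψ hψΩ]
  apply cauchy_ball hr (hh.comp hψ hψΩ)
  intro t ht
  have := hm (hψΩ ht)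
  rw [mem_ball_zero_iff] at this
  exact this.le

theorem car_le_of_disc (hΩ : IsOpen Ω) {z X : V n} {ψ : ℂ → V n} {r : ℝ} (hr : 0 < r)
    (hψ : DifferentiableOn ℂ ψ (ball 0 r)) (hψΩ : MapsTo ψ (ball 0 r) Ω) (h0 : ψ 0 = z)
    (h1 : deriv ψ 0 = X) : Car Ω z X ≤ 1 / r := by
  subst h0 h1
  apply Real.sSup_le
  · rintro t ⟨h, hh, hm, rfl⟩
    exact norm_fderiv_disc_le hΩ hh hm hr hψ hψΩ
  · positivity

theorem exists_line_disc {z X : V n} {r : ℝ} (hr : 0 < r) (hsub : ball z r ⊆ Ω) (hX : X ≠ 0) :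
    DifferentiableOn ℂ (fun t : ℂ => z + t • X) (ball 0 (r / ‖X‖)) ∧
      MapsTo (fun t : ℂ => z + t • X) (ball 0 (r / ‖X‖)) Ω ∧
      deriv (fun t : ℂ => z + t • X) 0 = X := by
  have hXn : 0 < ‖X‖ := norm_pos_iff.2 hX
  refine ⟨?_, ?_, ?_⟩
  · exact ((differentiable_id.smul_const X).const_add z).differentiableOn
  · intro t ht
    apply hsub
    rw [mem_ball_zero_iff, lt_div_iff₀ hXn] at ht
    simpa [norm_smul] using ht
  · have : HasDerivAt (fun t : ℂ => z + t • X) ((1 : ℂ) • X) 0 :=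
      ((hasDerivAt_id (0 : ℂ)).smul_const X).const_add z
    simpa using this.deriv

theorem norm_fderiv_le_div (hΩ : IsOpen Ω) {h : V n → V n} (hh : DifferentiableOn ℂ h Ω)
    (hm : MapsTo h Ω (ball 0 1)) {z X : V n} {r : ℝ} (hr : 0 < r) (hsub : ball z r ⊆ Ω) :
    ‖fderiv ℂ h z X‖ ≤ ‖X‖ / r := by
  by_cases hX : X = 0
  · simp [hX]
  have hXn : 0 < ‖X‖ := norm_pos_iff.2 hX
  obtain ⟨a, b, c⟩ := exists_line_disc hr hsub hX
  have := norm_fderiv_disc_le hΩ hh hm (div_pos hr hXn) a b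
  rw [c] at this
  simp only [zero_smul, add_zero] at this
  refine this.trans (le_of_eq ?_)
  field_simp

theorem car_bddAbove (hΩ : IsOpen Ω) {z : V n} (hz : z ∈ Ω) (X : V n) :
    BddAbove {t : ℝ | ∃ h : V n → V n, DifferentiableOn ℂ h Ω ∧ MapsTo h Ω (ball 0 1) ∧
    t = ‖fderiv ℂ h z X‖} := by
  obtain ⟨r, hr, hsub⟩ := Metric.isOpen_iff.1 hΩ z hz
  refine ⟨‖X‖ / r, ?_⟩
  rintro t ⟨h, hh, hm, rfl⟩
  exact norm_fderiv_le_div hΩ hh hm hr hsub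

theorem le_car (hΩ : IsOpen Ω) {z : V n} (hz : z ∈ Ω) (X : V n) {h : V n → V n}
    (hh : DifferentiableOn ℂ h Ω) (hm : MapsTo h Ω (ball 0 1)) : ‖fderiv ℂ h z X‖ ≤ Car Ω z X :=
  le_csSup (car_bddAbove hΩ hz X) ⟨h, hh, hm, rfl⟩

theorem car_nonneg (Ω : Set (V n)) (z X : V n) : 0 ≤ Car Ω z X := by
  apply Real.sSup_nonneg
  rintro t ⟨h, hh, hm, rfl⟩
  exact norm_nonneg _

theorem car_le_div (hΩ : IsOpen Ω) {z X : V n} {r : ℝ} (hr : 0 < r) (hsub : ball z r ⊆ Ω) :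
    Car Ω z X ≤ ‖X‖ / r := by
  apply Real.sSup_le
  · rintro t ⟨h, hh, hm, rfl⟩
    exact norm_fderiv_le_div hΩ hh hm hr hsub
  · positivity

theorem car_add_le (hΩ : IsOpen Ω) {z : V n} (hz : z ∈ Ω) (X Y : V n) :
    Car Ω z (X + Y) ≤ Car Ω z X + Car Ω z Y := by
  apply Real.sSup_le
  · rintro t ⟨h, hh, hm, rfl⟩
    rw [map_add]
    exact (norm_add_le _ _).trans (add_le_add (le_car hΩ hz X hh hm) (le_car hΩ hz Y hh hm))
  · exact add_nonneg (car_nonneg _ _ _) (car_nonneg _ _ _)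

theorem le_car_of_bdd (hΩ : IsOpen Ω) {z : V n} (hz : z ∈ Ω) (X : V n) {D : ℝ} (hD : 0 < D)
    (hb : ∀ x ∈ Ω, ‖x‖ < D) : ‖X‖ / D ≤ Car Ω z X := by
  have h1 : ∀ x : V n, HasFDerivAt (fun x : V n => ((D : ℂ)⁻¹) • x)
      (((D : ℂ)⁻¹) • ContinuousLinearMap.id ℂ (V n)) x := fun x => (hasFDerivAt_id x).fun_const_smul _
  have h2 : MapsTo (fun x : V n => ((D : ℂ)⁻¹) • x) Ω (ball 0 1) := by
    intro x hx
    rw [mem_ball_zero_iff, norm_smul, norm_inv, Complex.norm_real, Real.norm_of_nonneg hD.le,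
      inv_mul_lt_iff₀ hD, mul_one]
    exact hb x hx
  have h3 := le_car hΩ hz X (fun x _ => (h1 x).differentiableAt.differentiableWithinAt) h2
  rw [(h1 z).fderiv] at h3
  simp only [ContinuousLinearMap.coe_smul', ContinuousLinearMap.coe_id', Pi.smul_apply, id_eq,
    norm_smul, norm_inv, Complex.norm_real, Real.norm_of_nonneg hD.le] at h3
  rwa [div_eq_inv_mul]

theorem norm_deriv_disc_le {D : ℝ} (hb : ∀ x ∈ Ω, ‖x‖ < D) {φ : ℂ → V n}
    (hφ : DifferentiableOn ℂ φ (ball 0 1)) (hm : MapsTo φ (ball 0 1) Ω) : ‖deriv φ 0‖ ≤ D := by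
  have := cauchy_ball one_pos hφ (M := D) (fun t ht => (hb _ (hm ht)).le)
  simpa using this

theorem nm_bddAbove {D : ℝ} (hb : ∀ x ∈ Ω, ‖x‖ < D) (z : V n) (ξ : V n →L[ℂ] ℂ) :
    BddAbove {t : ℝ | ∃ φ : ℂ → V n, DifferentiableOn ℂ φ (ball 0 1) ∧ MapsTo φ (ball 0 1) Ω ∧
    φ 0 = z ∧ t = ‖ξ (deriv φ 0)‖} := by
  refine ⟨‖ξ‖ * D, ?_⟩
  rintro t ⟨φ, hφ, hm, h0, rfl⟩
  exact (ξ.le_opNorm _).trans (mul_le_mul_of_nonneg_left (norm_deriv_disc_le hb hφ hm)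
    (norm_nonneg _))

theorem nm_nonneg (Ω : Set (V n)) (z : V n) (ξ : V n →L[ℂ] ℂ) : 0 ≤ Nm Ω z ξ := by
  apply Real.sSup_nonneg
  rintro t ⟨h, hh, hm, h0, rfl⟩
  exact norm_nonneg _

theorem le_nm {D : ℝ} (hb : ∀ x ∈ Ω, ‖x‖ < D) {z : V n} (ξ : V n →L[ℂ] ℂ) {φ : ℂ → V n}
    (hφ : DifferentiableOn ℂ φ (ball 0 1)) (hm : MapsTo φ (ball 0 1) Ω) (h0 : φ 0 = z) :
    ‖ξ (deriv φ 0)‖ ≤ Nm Ω z ξ :=
  le_csSup (nm_bddAbove hb z ξ) ⟨φ, hφ, hm, h0, rfl⟩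

theorem nm_le {z : V n} {ξ : V n →L[ℂ] ℂ} {B : ℝ} (hB : 0 ≤ B)
    (h : ∀ φ : ℂ → V n, DifferentiableOn ℂ φ (ball 0 1) → MapsTo φ (ball 0 1) Ω → φ 0 = z →
      ‖ξ (deriv φ 0)‖ ≤ B) : Nm Ω z ξ ≤ B := by
  apply Real.sSup_le
  · rintro t ⟨φ, hφ, hm, h0, rfl⟩
    exact h φ hφ hm h0
  · exact hB

theorem le_nm_line {D : ℝ} (hb : ∀ x ∈ Ω, ‖x‖ < D) {z : V n} {r : ℝ} (hr : 0 < r)
    (hsub : ball z r ⊆ Ω) (ξ : V n →L[ℂ] ℂ) {v : V n} (hv : ‖v‖ ≤ 1) :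
    r * ‖ξ v‖ ≤ Nm Ω z ξ := by
  by_cases hv0 : v = 0
  · simp [hv0, nm_nonneg]
  have hne : (r : ℂ) • v ≠ 0 := by
    simp [hv0, hr.ne']
  obtain ⟨a, b, c⟩ := exists_line_disc hr hsub hne
  have hn : ‖(r : ℂ) • v‖ = r * ‖v‖ := by
    rw [norm_smul, Complex.norm_real, Real.norm_of_nonneg hr.le]
  have hvp : 0 < ‖v‖ := norm_pos_iff.2 hv0
  have h1 : ball (0 : ℂ) 1 ⊆ ball 0 (r / ‖(r : ℂ) • v‖) := by
    apply ball_subset_ball
    rw [hn, le_div_iff₀ (by positivity)]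
    nlinarith
  have := le_nm hb ξ (z := z) (a.mono h1) (b.mono_left h1) (by simp)
  rw [c, map_smul, norm_smul, Complex.norm_real, Real.norm_of_nonneg hr.le] at this
  exact this

end basic

/-- a squeezing map with its inverse -/
structure Sq {n : ℕ} (Ω : Set (V n)) (f F : V n → V n) (s : ℝ) : Prop where
  hf : DifferentiableOn ℂ f Ω
  hfm : MapsTo f Ω (ball 0 1)
  hF : DifferentiableOn ℂ F (ball 0 s)
  hFm : MapsTo F (ball 0 s) Ω
  left : ∀ x ∈ Ω, ‖f x‖ < s → F (f x) = x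
  right : ∀ y ∈ ball (0 : V n) s, f (F y) = y

section squeeze

variable {n : ℕ} {Ω : Set (V n)} {f F : V n → V n} {s : ℝ}

theorem Sq.fderiv_left (H : Sq Ω f F s) (hΩ : IsOpen Ω) {x : V n} (hx : x ∈ Ω)
    (hfx : ‖f x‖ < s) (X : V n) : fderiv ℂ F (f x) (fderiv ℂ f x X) = X := by
  have h1 : HasFDerivAt f (fderiv ℂ f x) x := (H.hf.differentiableAt (hΩ.mem_nhds hx)).hasFDerivAt
  have h2 : HasFDerivAt F (fderiv ℂ F (f x)) (f x) :=
    (H.hF.differentiableAt (isOpen_ball.mem_nhds (by simpa using hfx))).hasFDerivAt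
  have h3 := h2.comp x h1
  have h4 : (fun y => F (f y)) =ᶠ[nhds x] id := by
    have hc : ContinuousAt f x := h1.continuousAt
    filter_upwards [hΩ.mem_nhds hx, hc.norm.eventually_lt continuousAt_const hfx] with y hy hy2
    exact H.left y hy hy2
  have h5 : HasFDerivAt (fun y => F (f y)) (ContinuousLinearMap.id ℂ (V n)) x :=
    (hasFDerivAt_id x).congr_of_eventuallyEq h4
  have h6 := h3.unique h5
  have := congrArg (fun L => L X) h6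
  simpa using this

theorem Sq.center_car (H : Sq Ω f F s) (hΩ : IsOpen Ω) (hs : 0 < s) {z : V n} (hz : z ∈ Ω)
    (h0 : f z = 0) (X : V n) : s * Car Ω z X ≤ ‖fderiv ℂ f z X‖ := by
  set v := fderiv ℂ f z X with hv
  have hX : fderiv ℂ F 0 v = X := by
    have := H.fderiv_left hΩ hz (by rw [h0, norm_zero]; exact hs) X
    rwa [h0] at this
  by_cases hv0 : v = 0
  · have hX0 : X = 0 := by rw [← hX, hv0, map_zero]
    obtain ⟨r, hr, hsub⟩ := Metric.isOpen_iff.1 hΩ z hz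
    have := car_le_div (X := X) hΩ hr hsub
    rw [hX0, norm_zero, zero_div] at this
    rw [hv0, norm_zero, hX0]
    nlinarith
  have hvn : 0 < ‖v‖ := norm_pos_iff.2 hv0
  have hF0 : F 0 = z := by
    have := H.left z hz (by rw [h0, norm_zero]; exact hs)
    rwa [h0] at this
  obtain ⟨a, b, c⟩ := exists_line_disc (z := (0 : V n)) hs (Subset.refl _) hv0
  have hr : 0 < s / ‖v‖ := div_pos hs hvn
  have hd : DifferentiableOn ℂ (fun t : ℂ => F (0 + t • v)) (ball 0 (s / ‖v‖)) := H.hF.comp a b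
  have hder : deriv (fun t : ℂ => F (0 + t • v)) 0 = X := by
    have h1 : HasFDerivAt F (fderiv ℂ F 0) ((0 : V n) + (0 : ℂ) • v) := by
      simpa using (H.hF.differentiableAt (isOpen_ball.mem_nhds (mem_ball_self hs))).hasFDerivAt
    have h2 : HasDerivAt (fun t : ℂ => (0 : V n) + t • v) v 0 := by
      simpa using ((hasDerivAt_id (0 : ℂ)).smul_const v).const_add (0 : V n)
    have := (h1.comp_hasDerivAt (0 : ℂ) h2).deriv
    rw [← hX]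
    exact this
  have := car_le_of_disc hΩ (z := z) (X := X) hr hd (H.hFm.comp b) (by simp [hF0]) hder
  rw [one_div_div, le_div_iff₀ hs] at this
  linarith

theorem Sq.center_nm (H : Sq Ω f F s) (hΩ : IsOpen Ω) (hs : 0 < s) {z : V n} (hz : z ∈ Ω)
    (h0 : f z = 0) (ξ : V n →L[ℂ] ℂ) : Nm Ω z ξ ≤ ‖ξ.comp (fderiv ℂ F 0)‖ := by
  apply nm_le (norm_nonneg _)
  intro φ hφ hm hφ0
  have hX : fderiv ℂ F 0 (fderiv ℂ f z (deriv φ 0)) = deriv φ 0 := by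
    have := H.fderiv_left hΩ hz (by rw [h0, norm_zero]; exact hs) (deriv φ 0)
    rwa [h0] at this
  have h1 : ‖fderiv ℂ f z (deriv φ 0)‖ ≤ 1 := by
    have := norm_fderiv_disc_le hΩ H.hf H.hfm one_pos hφ hm
    rw [hφ0] at this
    simpa using this
  calc ‖ξ (deriv φ 0)‖ = ‖(ξ.comp (fderiv ℂ F 0)) (fderiv ℂ f z (deriv φ 0))‖ := by
        rw [ContinuousLinearMap.comp_apply, hX]
    _ ≤ ‖ξ.comp (fderiv ℂ F 0)‖ * ‖fderiv ℂ f z (deriv φ 0)‖ := ContinuousLinearMap.le_opNorm _ _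
    _ ≤ ‖ξ.comp (fderiv ℂ F 0)‖ * 1 := by gcongr
    _ = _ := mul_one _

theorem Sq.near_car (H : Sq Ω f F s) (hΩ : IsOpen Ω) {x : V n} (hx : x ∈ Ω) (X : V n) :
    ‖fderiv ℂ f x X‖ ^ 2 ≤ (1 - ‖f x‖ ^ 2) * Car Ω x X ^ 2 := by
  have hw : ‖f x‖ < 1 := by simpa using H.hfm hx
  obtain ⟨h, hh, hm, hb⟩ := ball_aut hw
  have h1 := hb (fderiv ℂ f x X)
  have h2 : ‖fderiv ℂ (fun y => h (f y)) x X‖ ≤ Car Ω x X :=
    le_car hΩ hx X (hh.comp H.hf H.hfm) (hm.comp H.hfm)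
  have h3 : fderiv ℂ (fun y => h (f y)) x X = fderiv ℂ h (f x) (fderiv ℂ f x X) := by
    have a1 : HasFDerivAt h (fderiv ℂ h (f x)) (f x) :=
      (hh.differentiableAt (isOpen_ball.mem_nhds (H.hfm hx))).hasFDerivAt
    have a2 : HasFDerivAt f (fderiv ℂ f x) x :=
      (H.hf.differentiableAt (hΩ.mem_nhds hx)).hasFDerivAt
    have a3 := (a1.comp x a2).fderiv
    have a4 : fderiv ℂ (fun y => h (f y)) x = (fderiv ℂ h (f x)).comp (fderiv ℂ f x) := a3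
    rw [a4]; rfl
  rw [h3] at h2
  have hpos : 0 ≤ 1 - ‖f x‖ ^ 2 := by nlinarith [norm_nonneg (f x)]
  calc ‖fderiv ℂ f x X‖ ^ 2 ≤ (1 - ‖f x‖ ^ 2) * ‖fderiv ℂ h (f x) (fderiv ℂ f x X)‖ ^ 2 := h1
    _ ≤ (1 - ‖f x‖ ^ 2) * Car Ω x X ^ 2 := by gcongr

theorem Sq.near_nm (H : Sq Ω f F s) {D : ℝ} (hb : ∀ x ∈ Ω, ‖x‖ < D)
    {x : V n} (hx : x ∈ Ω) (hfx : ‖f x‖ < s) (ξ : V n →L[ℂ] ℂ) {v : V n} (hv : ‖v‖ = 1) :
    (s ^ 2 - ‖f x‖ ^ 2) / s * ‖ξ (fderiv ℂ F (f x) v)‖ ≤ Nm Ω x ξ := by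
  obtain ⟨τ, hτ, hτ0, hτm, hτd⟩ := slice_disc hv hfx
  have hm : MapsTo (fun t : ℂ => f x + τ t • v) (ball 0 1) (ball 0 s) := by
    intro t ht
    rw [mem_ball_zero_iff]
    exact hτm t ht
  have hd : DifferentiableOn ℂ (fun t : ℂ => f x + τ t • v) (ball 0 1) :=
    (hτ.smul_const v).const_add _
  have h1 := le_nm hb ξ (z := x) (H.hF.comp hd hm) (H.hFm.comp hm) (by
    simp only [Function.comp, hτ0, zero_smul, add_zero]
    exact H.left x hx hfx)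
  have h2 : deriv (F ∘ fun t : ℂ => f x + τ t • v) 0 = deriv τ 0 • fderiv ℂ F (f x) v := by
    have a1 : HasFDerivAt F (fderiv ℂ F (f x)) (f x + τ 0 • v) := by
      rw [hτ0, zero_smul, add_zero]
      exact (H.hF.differentiableAt (isOpen_ball.mem_nhds (by simpa using hfx))).hasFDerivAt
    have a2 : HasDerivAt (fun t : ℂ => f x + τ t • v) (deriv τ 0 • v) 0 :=
      ((hτ.differentiableAt (isOpen_ball.mem_nhds (mem_ball_self one_pos))).hasDerivAt.smul_const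
        v).const_add _
    have a3 := (a1.comp_hasDerivAt (0 : ℂ) a2).deriv
    rw [a3, map_smul]
  rw [h2, map_smul, norm_smul] at h1
  refine le_trans ?_ h1
  gcongr

end squeeze

end Pool.Agent.W737.SQ
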