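import Pool.Agent.W737.SQ.Defs

/-!
# The transversal slice (project SQ)
-/

set_option autoImplicit false

open Metric Set

namespace Pool.Agent.W737.SQ

variable {n : ℕ}

/-- `ell` as a continuous complex linear functional -/
noncomputable def ellL (ρ : V n → ℝ) (z : V n) : V n →L[ℂ] ℂ :=
  (StrongDual.extendRCLikeₗᵢ (𝕜 := ℂ) (F := V n)) (fderiv ℝ ρ z)

theorem ellL_apply (ρ : V n → ℝ) (z X : V n) : ellL ρ z X = ell ρ z X := by
  simp [ellL, ell, StrongDual.extendRCLikeₗᵢ_apply, StrongDual.extendRCLike_apply]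

theorem contDiff_ellL {ρ : V n → ℝ} (hρ : ContDiff ℝ ((⊤ : ℕ∞) : WithTop ℕ∞) ρ) :
    ContDiff ℝ ((⊤ : ℕ∞) : WithTop ℕ∞) (fun z => ellL ρ z) := by
  have h1 : ContDiff ℝ ((⊤ : ℕ∞) : WithTop ℕ∞) (fderiv ℝ ρ) :=
    hρ.fderiv_right (by norm_cast)
  exact ((StrongDual.extendRCLikeₗᵢ (𝕜 := ℂ) (F := V n)).toContinuousLinearEquiv.contDiff).comp h1

/-- local Lipschitz estimate in the form used here -/
theorem exists_lip {E F : Type*} [NormedAddCommGroup E] [NormedSpace ℝ E]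
    [NormedAddCommGroup F] [NormedSpace ℝ F] {g : E → F} (hg : ContDiff ℝ 1 g) (c : E) :
    ∃ L r : ℝ, 0 < L ∧ 0 < r ∧ ∀ x y : E, ‖x - c‖ < r → ‖y - c‖ < r →
      ‖g x - g y‖ ≤ L * ‖x - y‖ := by
  obtain ⟨K, t, ht, hK⟩ := (hg.contDiffAt (x := c)).exists_lipschitzOnWith
  obtain ⟨r, hr, hsub⟩ := Metric.mem_nhds_iff.1 ht
  refine ⟨K + 1, r, by positivity, hr, fun x y hx hy => ?_⟩
  have h1 := hK.dist_le_mul x (hsub (by rwa [mem_ball, dist_eq_norm])) y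
    (hsub (by rwa [mem_ball, dist_eq_norm]))
  rw [dist_eq_norm, dist_eq_norm] at h1
  nlinarith [norm_nonneg (x - y)]

/-- existence of the normal vector -/
theorem exists_e {ρ : V n → ℝ} {p : V n} (h : fderiv ℝ ρ p ≠ 0) :
    ∃ e : V n, fderiv ℝ ρ p e = -1 ∧ fderiv ℝ ρ p (Complex.I • e) = 0 := by
  have h1 : ellL ρ p ≠ 0 := by
    intro h2
    apply h
    ext X
    have h3 : ell ρ p X = 0 := by rw [← ellL_apply, h2]; rfl
    have h4 := congrArg Complex.re h3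
    simpa [ell] using h4
  obtain ⟨X, hX⟩ : ∃ X, ellL ρ p X ≠ 0 := by
    by_contra hcon
    push Not at hcon
    exact h1 (ContinuousLinearMap.ext hcon)
  refine ⟨(-(ellL ρ p X)⁻¹) • X, ?_⟩
  have h5 : ell ρ p ((-(ellL ρ p X)⁻¹) • X) = -1 := by
    rw [← ellL_apply, map_smul, smul_eq_mul, neg_mul, inv_mul_cancel₀ hX]
  have h6 := congrArg Complex.re h5
  have h7 := congrArg Complex.im h5
  constructor
  · simpa [ell] using h6
  · simpa [ell] using h7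

theorem slice_data (hflat : S_flat) (hjet : S_jet) {ρ : V n → ℝ} {p e : V n}
    (hρ : ContDiff ℝ ((⊤ : ℕ∞) : WithTop ℕ∞) ρ) (hp : ρ p = 0) (he : fderiv ℝ ρ p e = -1)
    (heI : fderiv ℝ ρ p (Complex.I • e) = 0) (N : ℕ) :
    ∃ (Γ : ℂ → V n) (Ξ : ℂ → (V n →L[ℂ] ℂ)) (K r : ℝ), 0 < K ∧ 0 < r ∧ Differentiable ℂ Γ ∧
      Γ 0 = p ∧ Differentiable ℂ Ξ ∧ ∀ ζ : ℂ, ‖ζ‖ < r →
        |ρ (Γ ζ) + ζ.re| ≤ K * (|ζ.re| * ‖ζ‖ + ‖ζ‖ ^ N) ∧
        ‖Ξ ζ - ellL ρ (Γ ζ)‖ ≤ K * (|ζ.re| + ‖ζ‖ ^ N) ∧ ‖Γ ζ - p‖ ≤ K * ‖ζ‖ := by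
  obtain ⟨c, hc0, hc1, K1, r1, hK1, hr1, hc⟩ := hflat n ρ p e hρ hp he heI N
  set Γ : ℂ → V n := fun ζ => p + c.eval ζ • e with hΓ
  have hΓd : Differentiable ℂ Γ := (c.differentiable.smul_const e).const_add p
  have hΓC : ContDiff ℂ ((⊤ : ℕ∞) : WithTop ℕ∞) Γ := hΓd.contDiff
  have hΓR : ContDiff ℝ ((⊤ : ℕ∞) : WithTop ℕ∞) Γ := hΓC.restrict_scalars ℝ
  have hΓ0 : Γ 0 = p := by
    have : c.eval 0 = 0 := by rw [← Polynomial.coeff_zero_eq_eval_zero, hc0]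
    simp [hΓ, this]
  have hIy : ContDiff ℝ ((⊤ : ℕ∞) : WithTop ℕ∞) (fun y : ℝ => Complex.I * (y : ℂ)) :=
    contDiff_const.mul Complex.ofRealCLM.contDiff
  have hT : ContDiff ℝ ((⊤ : ℕ∞) : WithTop ℕ∞) (fun y : ℝ => ellL ρ (Γ (Complex.I * (y : ℂ)))) :=
    ((contDiff_ellL hρ).comp hΓR).comp hIy
  obtain ⟨Ξ, hΞ, K2, r2, hK2, hr2, hj⟩ := hjet n _ hT N
  -- the function g = rho (Gamma zeta) + re zeta
  set g : ℂ → ℝ := fun ζ => ρ (Γ ζ) + ζ.re with hg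
  have hgC : ContDiff ℝ ((⊤ : ℕ∞) : WithTop ℕ∞) g := (hρ.comp hΓR).add Complex.reCLM.contDiff
  have hg' : fderiv ℝ g 0 = 0 := by
    have hcd : HasDerivAt (fun ζ : ℂ => c.eval ζ) 1 0 := by
      have := c.hasDerivAt (0 : ℂ)
      rwa [← Polynomial.coeff_zero_eq_eval_zero, Polynomial.coeff_derivative, zero_add, hc1,
        Nat.cast_zero, zero_add, mul_one] at this
    have h1 : HasDerivAt Γ e 0 := by
      have h0 := (hcd.smul_const e).const_add p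
      rw [one_smul] at h0
      exact h0
    have h2 : HasFDerivAt Γ ((ContinuousLinearMap.toSpanSingleton ℂ e)) 0 := h1.hasFDerivAt
    have h3 : HasFDerivAt Γ ((ContinuousLinearMap.toSpanSingleton ℂ e).restrictScalars ℝ) 0 :=
      h2.restrictScalars ℝ
    have h4 : HasFDerivAt ρ (fderiv ℝ ρ p) (Γ 0) := by
      rw [hΓ0]
      exact (hρ.differentiable (by simp)).differentiableAt.hasFDerivAt
    have h5 := (h4.comp (0 : ℂ) h3).add (Complex.reCLM.hasFDerivAt (x := (0 : ℂ)))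
    have h6 : HasFDerivAt g ((fderiv ℝ ρ p).comp
        ((ContinuousLinearMap.toSpanSingleton ℂ e).restrictScalars ℝ) + Complex.reCLM) 0 := h5
    rw [h6.fderiv]
    ext ζ
    have h7 : ∀ ζ : ℂ, fderiv ℝ ρ p (ζ • e) = -ζ.re := by
      intro ζ
      have h8 : ζ • e = ζ.re • e + ζ.im • (Complex.I • e) := by
        rw [← Complex.coe_smul, ← Complex.coe_smul, smul_smul, ← add_smul]
        congr 1
        conv_lhs => rw [← Complex.re_add_im ζ]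
      rw [h8, map_add, map_smul, map_smul, he, heI]
      simp
    simp only [_root_.add_apply, ContinuousLinearMap.comp_apply,
      ContinuousLinearMap.coe_restrictScalars', ContinuousLinearMap.toSpanSingleton_apply,
      Complex.reCLM_apply, _root_.zero_apply]
    rw [h7]
    ring
  have hgd : ContDiff ℝ 1 (fderiv ℝ g) := hgC.fderiv_right (by norm_cast)
  obtain ⟨L1, s1, hL1, hs1, hlip1⟩ := exists_lip hgd (0 : ℂ)
  have hell : ContDiff ℝ 1 (fun ζ : ℂ => ellL ρ (Γ ζ)) :=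
    (((contDiff_ellL hρ).comp hΓR).of_le (by norm_cast))
  obtain ⟨L2, s2, hL2, hs2, hlip2⟩ := exists_lip hell (0 : ℂ)
  have hΞR : ContDiff ℝ 1 Ξ := (hΞ.contDiff (n := 1)).restrict_scalars ℝ
  obtain ⟨L3, s3, hL3, hs3, hlip3⟩ := exists_lip hΞR (0 : ℂ)
  obtain ⟨L4, s4, hL4, hs4, hlip4⟩ := exists_lip (hΓR.of_le (by norm_cast) : ContDiff ℝ 1 Γ) (0 : ℂ)
  refine ⟨Γ, Ξ, K1 + K2 + L1 + L2 + L3 + L4, min (min r1 r2) (min (min s1 s2) (min s3 s4)),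
    by positivity, by positivity, hΓd, hΓ0, hΞ, fun ζ hζ => ?_⟩
  simp only [lt_min_iff] at hζ
  obtain ⟨⟨hζr1, hζr2⟩, ⟨hζs1, hζs2⟩, hζs3, hζs4⟩ := hζ
  set y := ζ.im with hy
  have hyn : |y| ≤ ‖ζ‖ := Complex.abs_im_le_norm ζ
  have hw : ‖Complex.I * (y : ℂ)‖ = |y| := by
    rw [norm_mul, Complex.norm_I, one_mul, Complex.norm_real, Real.norm_eq_abs]
  have hsub : ζ - Complex.I * (y : ℂ) = (ζ.re : ℂ) := by
    conv_lhs => rw [← Complex.re_add_im ζ]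
    rw [hy]; ring
  have hsubn : ‖ζ - Complex.I * (y : ℂ)‖ = |ζ.re| := by
    rw [hsub, Complex.norm_real, Real.norm_eq_abs]
  have hyN : |y| ^ N ≤ ‖ζ‖ ^ N := pow_le_pow_left₀ (abs_nonneg _) hyn N
  refine ⟨?_, ?_, ?_⟩
  · have h1 : ‖g ζ - g (Complex.I * (y : ℂ))‖ ≤ (L1 * ‖ζ‖) * ‖ζ - Complex.I * (y : ℂ)‖ := by
      apply (convex_closedBall (0 : ℂ) ‖ζ‖).norm_image_sub_le_of_norm_fderiv_le (𝕜 := ℝ)
      · intro x _
        exact (hgC.differentiable (by simp)).differentiableAt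
      · intro x hx
        have hx' : ‖x‖ ≤ ‖ζ‖ := by simpa using hx
        have := hlip1 x 0 (by simpa using hx'.trans_lt hζs1) (by simpa using hs1)
        rw [hg', sub_zero, sub_zero] at this
        refine this.trans ?_
        gcongr
      · simpa [hw] using hyn
      · simp
    rw [hsubn, Real.norm_eq_abs] at h1
    have h2 : |g (Complex.I * (y : ℂ))| ≤ K1 * |y| ^ N := by
      have h3 : g (Complex.I * (y : ℂ)) = ρ (p + c.eval (Complex.I * (y : ℂ)) • e) := by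
        simp [hg, hΓ]
      rw [h3]
      exact hc y (hyn.trans hζr1.le)
    have h4 : |g ζ| ≤ |g ζ - g (Complex.I * (y : ℂ))| + |g (Complex.I * (y : ℂ))| := by
      have := abs_add_le (g ζ - g (Complex.I * (y : ℂ))) (g (Complex.I * (y : ℂ)))
      simpa using this
    change |g ζ| ≤ _
    have h5 : 0 ≤ |ζ.re| * ‖ζ‖ := by positivity
    have h6 : 0 ≤ ‖ζ‖ ^ N := by positivity
    calc |g ζ| ≤ L1 * ‖ζ‖ * |ζ.re| + K1 * |y| ^ N := h4.trans (add_le_add h1 h2)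
      _ ≤ L1 * (|ζ.re| * ‖ζ‖) + K1 * ‖ζ‖ ^ N := by
          have := mul_le_mul_of_nonneg_left hyN hK1.le
          nlinarith
      _ ≤ (K1 + K2 + L1 + L2 + L3 + L4) * (|ζ.re| * ‖ζ‖ + ‖ζ‖ ^ N) := by
          nlinarith [mul_nonneg hK1.le h5, mul_nonneg hK2.le h5, mul_nonneg hL2.le h5,
            mul_nonneg hL3.le h5, mul_nonneg hL4.le h5, mul_nonneg hK2.le h6,
            mul_nonneg hL1.le h6, mul_nonneg hL2.le h6, mul_nonneg hL3.le h6, mul_nonneg hL4.le h6]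
  · have hwlt : ∀ s : ℝ, ‖ζ‖ < s → ‖Complex.I * (y : ℂ) - 0‖ < s := by
      intro s hs
      rw [sub_zero, hw]
      exact hyn.trans_lt hs
    have h1 := hlip2 ζ (Complex.I * (y : ℂ)) (by simpa using hζs2) (hwlt _ hζs2)
    have h2 := hlip3 ζ (Complex.I * (y : ℂ)) (by simpa using hζs3) (hwlt _ hζs3)
    have h3 := hj y (hyn.trans hζr2.le)
    rw [hsubn] at h1 h2
    have h4 : Ξ ζ - ellL ρ (Γ ζ) = (Ξ ζ - Ξ (Complex.I * (y : ℂ)))
        - (ellL ρ (Γ ζ) - ellL ρ (Γ (Complex.I * (y : ℂ))))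
        - (ellL ρ (Γ (Complex.I * (y : ℂ))) - Ξ (Complex.I * (y : ℂ))) := by abel
    have h5 : 0 ≤ |ζ.re| := abs_nonneg _
    have h6 : 0 ≤ ‖ζ‖ ^ N := by positivity
    have h7 := mul_le_mul_of_nonneg_left hyN hK2.le
    calc ‖Ξ ζ - ellL ρ (Γ ζ)‖ ≤ L3 * |ζ.re| + L2 * |ζ.re| + K2 * |y| ^ N := by
          rw [h4]
          exact (norm_sub_le _ _).trans (add_le_add ((norm_sub_le _ _).trans (add_le_add h2 h1)) h3)
      _ ≤ L3 * |ζ.re| + L2 * |ζ.re| + K2 * ‖ζ‖ ^ N := by linarith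
      _ ≤ (K1 + K2 + L1 + L2 + L3 + L4) * (|ζ.re| + ‖ζ‖ ^ N) := by
          nlinarith [mul_nonneg hK1.le h5, mul_nonneg hK2.le h5, mul_nonneg hL1.le h5,
            mul_nonneg hL4.le h5, mul_nonneg hK1.le h6,
            mul_nonneg hL1.le h6, mul_nonneg hL2.le h6, mul_nonneg hL3.le h6, mul_nonneg hL4.le h6]
  · have h1 := hlip4 ζ 0 (by simpa using hζs4) (by simpa using hs4)
    rw [hΓ0, sub_zero] at h1
    have h5 : 0 ≤ ‖ζ‖ := norm_nonneg _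
    nlinarith [mul_nonneg hK1.le h5, mul_nonneg hK2.le h5, mul_nonneg hL1.le h5,
      mul_nonneg hL2.le h5, mul_nonneg hL3.le h5]

end Pool.Agent.W737.SQ
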